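import Pool.Agent.MP_1a6d78_lc.PL.Med

/-! PROJECT GX: the gadget keeps walks and does not raise the genus. -/

namespace Pool.Agent.MP_1a6d78_lc.GX

open Classical ED PR PL

/-- Counting classes by a map that reflects the relation. -/
theorem ncl_map {n m : ℕ} {A B : ℕ → Prop} {r r' : ℕ → ℕ → Prop} (f : ℕ → ℕ) (h : Eqv n r)
    (h' : Eqv m r') (h1 : ∀ a < n, A a → f a < m ∧ ∀ y < m, r' (f a) y → B y)
    (h2 : ∀ a < n, ∀ b < n, A a → A b → r' (f a) (f b) → r a b) : ncl n A r ≤ ncl m B r' := by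
  have s : ∀ a < n, A a → lst m (r' (f a)) < m ∧ r' (f a) (lst m (r' (f a))) := fun a ha k =>
    lst_spec ⟨_, (h1 a ha k).1, h'.1 _ (h1 a ha k).1⟩
  refine cnt_inj (fun a => lst m (r' (f a))) (fun a ha k => ?_) fun a ha b hb k l e => ?_
  · obtain ⟨s1, s2⟩ := s a ha k.1
    exact ⟨s1, (h1 a ha k.1).2 _ s1 s2, fun e he u =>
      lst_le he (h'.2.2 _ (h1 a ha k.1).1 _ s1 _ he s2 u)⟩
  · obtain ⟨s1, s2⟩ := s a ha k.1
    obtain ⟨-, t2⟩ := s b hb l.1
    have e' : lst m (r' (f a)) = lst m (r' (f b)) := e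
    rw [← e'] at t2
    have u := h2 a ha b hb k.1 l.1 (h'.2.2 _ (h1 a ha k.1).1 _ s1 _ (h1 b hb l.1).1 s2
      (h'.2.1 _ (h1 b hb l.1).1 _ s1 t2))
    exact le_antisymm (k.2 b hb u) (l.2 a ha (h.2.1 a ha b hb u))

theorem eqv_eq (n : ℕ) : Eqv n Eq :=
  ⟨fun _ _ => rfl, fun _ _ _ _ e => e.symm, fun _ _ _ _ _ _ e e' => e.trans e'⟩

theorem ncl_eq (n : ℕ) : ncl n (fun _ => True) Eq = n := by
  have : ncl n (fun _ => True) Eq = cnt n fun _ => True :=
    cnt_congr fun _ _ => ⟨And.left, fun k => ⟨k, fun _ _ e => e.le⟩⟩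
  rw [this]
  simp [cnt]

/-- Cycles of `f` inside `B` seen through a label. -/
theorem ncl_lab {n m : ℕ} {B : ℕ → Prop} {r : ℕ → ℕ → Prop} {f : ℕ → ℕ} (e lab : ℕ → ℕ)
    (h : Eqv n r) (p : Pm m f) (h1 : ∀ a < n, e a < m ∧ B (e a) ∧ lab (e a) = a)
    (h2 : ∀ d < m, B d → B (f d) ∧ lab d < n ∧ r (lab d) (lab (f d))) :
    ncl n (fun _ => True) r ≤ ncl m B (Sc m f) := by
  have k : ∀ a < n, ∀ y, Sc m f (e a) y → B y ∧ r a (lab y) := fun a ha y u =>
    Sc.ind p.1 (Q := fun d => B d ∧ r a (lab d)) (h1 a ha).1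
      ⟨(h1 a ha).2.1, by rw [(h1 a ha).2.2]; exact h.1 a ha⟩
      (fun d hd v => ⟨(h2 d hd v.1).1, h.2.2 a ha _ (h2 d hd v.1).2.1 _
        (h2 _ (p.1 d hd) (h2 d hd v.1).1).2.1 v.2 (h2 d hd v.1).2.2⟩) u
  refine ncl_map e h p.eqv (fun a ha _ => ⟨(h1 a ha).1, fun y _ u => (k a ha y u).1⟩)
    fun a ha b hb _ _ u => ?_
  have := (k a ha _ u).2
  rwa [(h1 b hb).2.2] at this

variable {N : ℕ} {ρ β : ℕ → ℕ} {us : ℕ → Prop}

theorem far4 (us : ℕ → Prop) (a : ℕ) : far us a / 4 = a ∧ mid us a / 4 = a ∧ far us a ≠ mid us a ∧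
    2 ≤ far us a % 4 ∧ 2 ≤ mid us a % 4 := by
  have := fm_cases us a
  omega

theorem gad_gen (p : Pm N ρ) (q : Iv N β) :
    gen (2 * (2 * N)) (gad ρ β us) fl ≤ gen N ρ β := by
  have P := gad_pm (us := us) p q
  have F := P.comp (fl_iv (2 * N)).pm
  have d0 : ∀ a, 4 * a / 4 = a := fun a => by omega
  have d1 : ∀ a, (4 * a + 1) / 4 = a := fun a => by omega
  have a1 : ncl (2 * N) (fun _ => True) Eq ≤ ncl (2 * (2 * N)) (fun _ => True) (Sc _ fl) :=
    ncl_lab (fun a => 2 * a) (fun d => d / 2) (eqv_eq _) (fl_iv _).pm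
      (fun a ha => ⟨by omega, trivial, by omega⟩)
      fun d hd _ => ⟨trivial, by omega, by unfold fl; split_ifs <;> omega⟩
  have a2 : ncl N (fun _ => True) (Sc N β) ≤ ncl (2 * (2 * N))
      (fun d => d % 4 = 0 ∨ d = mid us (d / 4)) (Sc _ fun d => gad ρ β us (fl d)) :=
    ncl_lab (fun a => 4 * a) (fun d => d / 4) q.pm.eqv F
      (fun a ha => ⟨by omega, Or.inl (by omega), d0 a⟩) fun d hd k => by
        obtain ⟨a, ha, rfl | rfl | rfl | rfl⟩ := gcases us hd <;> have := far4 us a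
        · rw [fl40, g1, this.2.1, d0]
          exact ⟨Or.inr rfl, ha, Sc.refl _ ha⟩
        · have := far4 us ((4 * a + 1) / 4)
          omega
        · rw [this.1] at k
          omega
        · rw [fl_mid, gf, this.2.1, d0]
          exact ⟨Or.inl (by omega), ha, Sc.step q.pm.1 ha⟩
  have a3 : ncl N (fun _ => True) (Sc N fun d => ρ (β d)) ≤ ncl (2 * (2 * N))
      (fun d => ¬(d % 4 = 0 ∨ d = mid us (d / 4))) (Sc _ fun d => gad ρ β us (fl d)) :=
    ncl_lab (fun a => 4 * β a + 1) (fun d => β (d / 4)) (p.comp q.pm).eqv F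
      (fun a ha => ⟨by have := (q a ha).1; omega, by
        have := far4 us ((4 * β a + 1) / 4)
        omega, by rw [d1, (q a ha).2]⟩) fun d hd k => by
        obtain ⟨a, ha, rfl | rfl | rfl | rfl⟩ := gcases us hd <;> have := far4 us a
        · omega
        · have u := far4 us (β (ρ a))
          rw [fl41, g0, u.1, d1, (q _ (p.1 a ha)).2]
          refine ⟨by omega, (q a ha).1, ?_⟩
          have := Sc.step (p.comp q.pm).1 (q a ha).1
          rwa [(q a ha).2] at this
        · rw [fl_far, gm, this.1, d1]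
          exact ⟨by omega, (q a ha).1, Sc.refl _ (q a ha).1⟩
        · rw [this.2.1] at k
          omega
  have a4 : ncl N (fun _ => True) (Sc N ρ) ≤ ncl (2 * (2 * N))
      (fun d => d % 4 = 0 ∨ d = far us (d / 4)) (Sc _ (gad ρ β us)) :=
    ncl_lab (fun a => 4 * a) (fun d => if d % 4 = 0 then d / 4 else β (d / 4)) p.eqv P
      (fun a ha => ⟨by omega, Or.inl (by omega), by rw [if_pos (by omega), d0]⟩) fun d hd k => by
        obtain ⟨a, ha, rfl | rfl | rfl | rfl⟩ := gcases us hd <;> have := far4 us a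
        · have u := far4 us (β (ρ a))
          rw [g0, if_pos (by omega), if_neg (by omega), u.1, d0, (q _ (p.1 a ha)).2]
          exact ⟨Or.inr rfl, ha, Sc.step p.1 ha⟩
        · have := far4 us ((4 * a + 1) / 4)
          omega
        · rw [gf, if_neg (by omega), if_pos (by omega), this.1, d0]
          exact ⟨Or.inl (by omega), (q a ha).1, Sc.refl _ (q a ha).1⟩
        · rw [this.2.1] at k
          omega
  have a5 : ncl N (fun _ => True) Eq ≤ ncl (2 * (2 * N))
      (fun d => ¬(d % 4 = 0 ∨ d = far us (d / 4))) (Sc _ (gad ρ β us)) :=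
    ncl_lab (fun a => 4 * a + 1) (fun d => d / 4) (eqv_eq _) P
      (fun a ha => ⟨by omega, by
        have := far4 us ((4 * a + 1) / 4)
        omega, d1 a⟩) fun d hd k => by
        obtain ⟨a, ha, rfl | rfl | rfl | rfl⟩ := gcases us hd <;> have := far4 us a
        · omega
        · rw [g1, this.2.1, d1]
          exact ⟨by omega, ha, rfl⟩
        · rw [this.1] at k
          omega
        · rw [gm, this.2.1, d1]
          exact ⟨by omega, ha, rfl⟩
  have c1 : ∀ a < N, Conn (2 * (2 * N)) (gad ρ β us) fl (4 * a) (mid us a) ∧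
      Conn (2 * (2 * N)) (gad ρ β us) fl (4 * a) (far us a) := fun a ha => by
    have := far4 us a
    have u1 := Conn.gam (n := 2 * (2 * N)) (gad ρ β us) fl (a := 4 * a) (by omega)
    have u2 := Conn.rho (n := 2 * (2 * N)) (gad ρ β us) fl (a := 4 * a + 1) (by omega)
    have u3 := Conn.gam (n := 2 * (2 * N)) (gad ρ β us) fl (a := mid us a) (by omega)
    rw [fl40] at u1
    rw [g1] at u2
    rw [fl_mid] at u3
    exact ⟨u1.trans u2, (u1.trans u2).trans u3⟩
  have c2 : ∀ d < 2 * (2 * N), Conn (2 * (2 * N)) (gad ρ β us) fl (4 * (d / 4)) d := fun d hd => by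
    obtain ⟨a, ha, rfl | rfl | rfl | rfl⟩ := gcases us hd <;> have := far4 us a
    · rw [d0]; exact Conn.refl _ _ _ _
    · rw [d1, ← fl40]; exact Conn.gam _ _ (by omega)
    · rw [this.1]; exact (c1 a ha).2
    · rw [this.2.1]; exact (c1 a ha).1
  have c3 : ∀ a < N, Conn (2 * (2 * N)) (gad ρ β us) fl (far us a) (4 * β a) := fun a ha => by
    have := far4 us a
    rw [← gf (ρ := ρ) (us := us)]
    exact Conn.rho _ _ (by omega)
  have a6 : ncl (2 * (2 * N)) (fun _ => True) (Conn _ (gad ρ β us) fl) ≤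
      ncl N (fun _ => True) (Conn N ρ β) :=
    ncl_map (fun d => d / 4) (Conn.eqv _ _ _) (Conn.eqv _ _ _)
      (fun d hd _ => ⟨by omega, fun _ _ _ => trivial⟩) fun a ha b hb _ _ u =>
      ((c2 a ha).symm.trans (Conn.ind
        (r := fun x y => Conn (2 * (2 * N)) (gad ρ β us) fl (4 * x) (4 * y))
        ⟨fun _ => Conn.refl _ _ _ _, Conn.symm, Conn.trans⟩ (fun x hx => by
          have v := c3 _ (q _ (p.1 x hx)).1
          rw [(q _ (p.1 x hx)).2, ← g0] at v
          exact (Conn.rho _ _ (by omega)).trans v)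
        (fun x hx => (c1 x hx).2.trans (c3 x hx)) u)).trans (c2 b hb)
  have s1 := ncl_split (2 * (2 * N)) (fun d => d % 4 = 0 ∨ d = mid us (d / 4))
    (Sc (2 * (2 * N)) fun d => gad ρ β us (fl d))
  have s2 := ncl_split (2 * (2 * N)) (fun d => d % 4 = 0 ∨ d = far us (d / 4))
    (Sc (2 * (2 * N)) (gad ρ β us))
  rw [ncl_eq] at a1 a5
  unfold gen
  push_cast
  omega

theorem gad_wk (p : Pm N ρ) (q : Iv N β) {a b : ℕ} (ha : a < N) :
    Go (2 * N) (gad ρ β us) (4 * a) (4 * b) ↔ Wk N ρ β us a b := by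
  constructor
  · intro h
    have key : ∀ d, Go (2 * N) (gad ρ β us) (4 * a) d → ∃ x < N,
        ((d = 4 * x + 1 ∨ d = mid us x) ∧ (us x → Wk N ρ β us a x)) ∨
        (Wk N ρ β us a x ∧ (d = 4 * x ∨ d = far us (β x))) := fun d k => by
      induction k with
      | refl => exact ⟨a, ha, Or.inr ⟨.refl, Or.inl rfl⟩⟩
      | @tail u v _ k ih =>
        obtain ⟨x, hx, ⟨r, s⟩ | ⟨s, r⟩⟩ := ih
        · have := fm_cases us x
          rcases k with ⟨-, rfl | ⟨k, rfl⟩⟩
          · refine ⟨x, hx, Or.inl ⟨?_, s⟩⟩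
            rcases r with rfl | rfl
            · exact Or.inr (g1 x)
            · exact Or.inl (gm x)
          · have ux : us x := by
              by_contra u
              have := (this.resolve_left fun k => u k.1).2
              omega
            have := (this.resolve_right fun k => k.1 ux).2
            exact ⟨_, (q x hx).1, Or.inr ⟨(s ux).tail ⟨hx, Or.inr ⟨ux, rfl⟩⟩,
              Or.inr (by rw [(q x hx).2]; omega)⟩⟩
        · have := fm_cases us (β x)
          rcases k with ⟨-, rfl | ⟨k, rfl⟩⟩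
          · rcases r with rfl | rfl
            · exact ⟨_, p.1 x hx, Or.inr ⟨s.tail ⟨hx, Or.inl rfl⟩, Or.inr (g0 x)⟩⟩
            · exact ⟨x, hx, Or.inr ⟨s, Or.inl (by rw [gf, (q x hx).2])⟩⟩
          · rcases r with rfl | rfl
            · exact ⟨x, hx, Or.inl ⟨Or.inl rfl, fun _ => s⟩⟩
            · refine ⟨_, (q x hx).1, Or.inl ⟨Or.inr (by omega), fun u => ?_⟩⟩
              have := (this.resolve_right fun k => k.1 u).2
              omega
    obtain ⟨x, _, ⟨r, _⟩ | ⟨s, r⟩⟩ := key _ h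
    · have := fm_cases us x
      omega
    · have := fm_cases us (β x)
      obtain rfl : x = b := by omega
      exact s
  · intro h
    induction h with
    | refl => exact .refl
    | @tail u v _ k ih =>
      rcases k with ⟨k, rfl | ⟨k', rfl⟩⟩
      · have := fm_cases us (β (ρ u))
        have := (q _ (p.1 u k)).1
        exact (ih.tail ⟨by omega, Or.inl (g0 u).symm⟩).tail
          ⟨by omega, Or.inl (by rw [gf, (q _ (p.1 u k)).2])⟩
      · have := ((fm_cases us u).resolve_right fun k => k.1 k').2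
        exact (((ih.tail ⟨by omega, Or.inr ⟨by omega, rfl⟩⟩).tail
          ⟨by omega, Or.inl (g1 u).symm⟩).tail (c := far us u) ⟨by omega, Or.inr (by omega)⟩).tail
          ⟨by omega, Or.inl (gf u).symm⟩

end Pool.Agent.MP_1a6d78_lc.GX
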