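import Pool.Agent.MP_1a6d78_lc.GX.Spec

/-! PROJECT GX: histories that agree up to a round; one more round. -/

namespace Pool.Agent.MP_1a6d78_lc.GX

open Classical ED PR SC GL PG GN GM

/-- Two histories agree up to the map `k`. -/
structure Ag (Z Z' : Hs) (k : ℕ) : Prop where
  n : Z'.n = Z.n
  C : Z'.C = Z.C
  σ : ∀ i ≤ k, Z'.σ i = Z.σ i
  A : ∀ i ≤ k, Z'.A i = Z.A i
  T : ∀ i < k, Z'.T i = Z.T i

namespace Ag

variable {Z Z' : Hs} {k i : ℕ} (h : Ag Z Z' k)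
include h

theorem pos (hi : i ≤ k) : Z'.pos i = Z.pos i := by
  funext c
  unfold Hs.pos
  rw [h.n, h.C, h.σ i hi, h.A i hi]

theorem Co (hi : i ≤ k) : Z'.Co i = Z.Co i := by
  funext c
  unfold Hs.Co
  rw [h.A i hi]
  exact propext (and_congr_right fun _ => forall_congr' fun j => imp_congr_right fun hj => by
    rw [h.pos (by omega)])

theorem Y (hi : i ≤ k) : Z'.Y i = Z.Y i := by
  funext c
  exact propext (exists_congr fun j => and_congr_right fun hj => by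
    rw [h.Co (by omega), h.T j (by omega)])

theorem G (hi : i ≤ k) : Z'.G i = Z.G i := by
  funext c
  unfold Hs.G
  rw [h.A 0 (by omega)]
  exact propext (and_congr_right fun _ => not_congr (exists_congr fun j =>
    and_congr_right fun hj => by rw [h.Co (by omega), h.T j (by omega), h.A _ (by omega)]))

theorem fr1 : fr1 Z' = fr1 Z := by
  funext Co Y G P b z
  unfold GX.fr1 yp
  rw [h.n, h.C, h.σ 0 (by omega)]

theorem Free (hi : i ≤ k) : Z'.Free i = Z.Free i := by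
  funext P b z
  show GX.fr1 Z' (Z'.Co i) (Z'.Y i) (Z'.G i) P b z = GX.fr1 Z (Z.Co i) (Z.Y i) (Z.G i) P b z
  rw [h.fr1, h.Co hi, h.Y hi, h.G hi]

theorem ok (o : Z.Ok k) : Z'.Ok k := by
  refine ⟨?_, fun i hi => ?_, ?_⟩
  · rw [h.n, h.σ 0 (by omega), h.A 0 (by omega)]
    exact o.lv
  · rw [h.n, h.σ i (by omega), h.σ _ hi, h.A i (by omega), h.A _ hi, h.T i hi]
    exact o.op i hi
  · rw [h.n, h.C, h.σ 0 (by omega), h.A 0 (by omega)]
    exact o.hc

theorem fre {s t : ℕ} (o : Z.Fre k s t) : Z'.Fre k s t := fun i hi => by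
  rw [h.Co hi.le, h.A _ hi, h.T i hi, h.Free hi.le]
  exact o i hi

theorem co1 : co1 Z' k = co1 Z k := by
  funext σ A y
  unfold GX.co1
  rw [h.n, h.C, h.Co le_rfl]

theorem y1 : y1 Z' k = y1 Z k := by
  funext T y
  unfold GX.y1
  rw [h.Y le_rfl, h.Co le_rfl]

end Ag

variable {Z : Hs} {k s t : ℕ}

theorem ok_succ (o : Z.Ok k) (p : Op Z.n (Z.σ k) (Z.σ (k + 1)) (Z.A k) (Z.A (k + 1)) (Z.T k)) :
    Z.Ok (k + 1) :=
  ⟨o.lv, fun i hi => (Nat.lt_succ_iff_lt_or_eq.1 hi).elim (o.op i) fun e => e ▸ p, o.hc⟩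

theorem fre_succ (o : Z.Fre k s t) (p : ∀ c, Z.Co k c → ¬Z.A (k + 1) c → ¬Z.T k c →
    ∃ P : ℕ → Prop, P c ∧ (Z.Free k P 1 t ∨ Z.Free k P 0 s)) : Z.Fre (k + 1) s t :=
  fun i hi => (Nat.lt_succ_iff_lt_or_eq.1 hi).elim (o i) fun e => e ▸ p

theorem co_succ (e : Z.A (k + 1) = Z.A k) :
    Z.Co (k + 1) = co1 Z k (Z.σ (k + 1)) (Z.A (k + 1)) := by
  funext c
  refine propext ⟨fun u => ⟨⟨e ▸ u.1, fun j hj => u.2 j (by omega)⟩, u.1, u.2 _ (by omega)⟩,
    fun u => ⟨u.2.1, fun j hj => ?_⟩⟩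
  rcases Nat.lt_succ_iff_lt_or_eq.1 hj with l | rfl
  exacts [u.1.2 j l, u.2.2]

theorem y_succ : Z.Y (k + 1) = y1 Z k (Z.T k) := by
  funext c
  refine propext ⟨fun ⟨j, hj, u⟩ => ?_, fun u => u.elim (fun ⟨j, hj, u⟩ => ⟨j, by omega, u⟩)
    fun u => ⟨k, by omega, u⟩⟩
  rcases Nat.lt_succ_iff_lt_or_eq.1 hj with l | rfl
  exacts [Or.inl ⟨j, l, u⟩, Or.inr u]

theorem g_succ (e : Z.A (k + 1) = Z.A k) : Z.G (k + 1) = Z.G k := by
  funext c
  refine propext (and_congr_right fun _ => not_congr ⟨fun ⟨j, hj, u⟩ => ?_,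
    fun ⟨j, hj, u⟩ => ⟨j, by omega, u⟩⟩)
  rcases Nat.lt_succ_iff_lt_or_eq.1 hj with l | rfl
  exacts [⟨j, l, u⟩, absurd (e ▸ u.1.1) u.2.1]

variable {n c q γ j : ℕ} {H o : Orc}

theorem lvl_le {i : ℕ} (hi : i ≤ j) : lvl q (ext j H o) i = lvl q H i := by
  unfold lvl
  rw [lev_ext_le ((min_le_left _ _).trans hi)]

theorem lvl_new (hj : j < q) : lvl q (ext j H o) (j + 1) = ofO q o := by
  unfold lvl
  rw [min_eq_left hj, lev_ext_lt j.lt_succ_self]

theorem lvl_eq (hj : j < q) : lvl q H j = ofO q (lev H j) := by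
  unfold lvl
  rw [min_eq_left hj.le]

theorem ag_ext : Ag (his n c q γ H) (his n c q γ (ext j H o)) (2 * j) := by
  have e : ∀ i ≤ 2 * j, stg n c q (ext j H o) i = stg n c q H i := fun i hi => by
    unfold stg
    rw [lvl_le (show i / 2 ≤ j by omega)]
    split_ifs
    · rfl
    · rw [lvl_le (show i / 2 + 1 ≤ j by omega)]
  refine ⟨rfl, rfl, fun i hi => ?_, fun i hi => ?_, fun i hi => ?_⟩
  · exact congrArg (fun P : Pr => tr (P.mp n).lk) (e i hi)
  · exact congrArg Pr.al (e i hi)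
  · funext y
    simp only [his]
    rw [lvl_le (show i / 2 ≤ j by omega), lvl_le (show i / 2 + 1 ≤ j by omega)]

theorem stg0 : stg n c q H (2 * j) = lvl q H j := by
  rw [stg, if_pos (by omega), Nat.mul_div_cancel_left _ two_pos]

theorem stg1 : stg n c q H (2 * j + 1) = mid n c q (lvl q H j) j (lvl q H (j + 1)).rs := by
  rw [stg, if_neg (by omega), show (2 * j + 1) / 2 = j by omega]

theorem his_T0 : (his n c q γ H).T (2 * j) = cT n c q (lvl q H j) j (lvl q H (j + 1)).rs := by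
  funext y
  simp only [his]
  rw [if_pos (by omega), Nat.mul_div_cancel_left _ two_pos]

theorem his_T1 : (his n c q γ H).T (2 * j + 1) = fun y => fs (lvl q H (j + 1)).rs 0 % 2 = 1 ∧
    (lvl q H j).al y ∧ ¬(lvl q H (j + 1)).al y := by
  funext y
  simp only [his]
  rw [if_neg (by omega), show (2 * j + 1) / 2 = j by omega]

end Pool.Agent.MP_1a6d78_lc.GX
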