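import Pool.Agent.MP_1a6d78_lc.GX.Prog

/-! PROJECT GX: the main program. -/

namespace Pool.Agent.MP_1a6d78_lc.GX

open Classical ED PR SC GL PG GN GM

theorem lin {N a u e : ℕ} (h : u ≤ a * (N + 2)) (he : a + 1 ≤ e) : u ≤ (N + 2) ^ e :=
  h.trans ((Nat.mul_le_mul_right _ ((Nat.le_succ a).trans (PS.le_pow N a))).trans (by
    rw [← pow_succ]; exact Nat.pow_le_pow_right (by omega) he))

theorem two {N e b : ℕ} (h : e + 2 ≤ b) : 2 * (N + 2) ^ e + 1 ≤ (N + 2) ^ b := by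
  have u : (N + 2) ^ (e + 2) ≤ (N + 2) ^ b := Nat.pow_le_pow_right (by omega) h
  have v : 2 ^ 2 ≤ (N + 2) ^ 2 := Nat.pow_le_pow_left (by omega) 2
  have w := Nat.one_le_pow e (N + 2) (by omega)
  rw [pow_add] at u
  nlinarith

theorem ar1 {A n N : ℕ} (h : n ≤ N) : A * (2 * n + 1) + 16 * (2 * n) ≤ (N + 2) ^ (2 * A + 33) :=
  lin (a := 2 * A + 32) (by nlinarith) le_rfl

theorem ar2 (E A C k : ℕ) {l : ℕ} (h : 1 ≤ l) :
    E * (4 * k + 1 + 1) * l ≤ (4 * E + A + C + 12 + 1) * (k + 1) * l ∧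
    A * l ≤ (4 * E + A + C + 12 + 1) * (k + 1) * l ∧
    C * (k + 1) + 13 * k + 13 ≤ (4 * E + A + C + 12 + 1) * (k + 1) * l :=
  ⟨Nat.mul_le_mul_right _ (by nlinarith), Nat.mul_le_mul_right _ (by nlinarith),
    le_trans (by nlinarith) (Nat.le_mul_of_pos_right _ h)⟩

theorem ar3 (c k : ℕ) : 16 * (c * (4 * k + 1)) + 2 * k + 2 ≤ (16 * c * 4 + 2) * (k + 1) := by
  nlinarith

theorem ar4 {C k n N b : ℕ} (h1 : n ≤ N) (h2 : k ≤ N) (h3 : C + 6 ≤ b) :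
    C * (k + 1) * (2 * (2 * n)) + C * (k + 1) + 1 ≤ (N + 2) ^ b := by
  have u : C * (k + 1) + 1 ≤ (N + 2) ^ (C + 1) :=
    (show _ ≤ (C + 1) * (N + 2) by nlinarith).trans
      ((Nat.mul_le_mul_right _ (PS.le_pow N C)).trans (pow_succ _ _).ge)
  have v : 2 * (2 * n) + 1 ≤ (N + 2) ^ 5 := lin (a := 4) (by omega) le_rfl
  refine le_trans ?_ ((Nat.mul_le_mul u v).trans (by
    rw [← pow_add]; exact Nat.pow_le_pow_right (by omega) h3))
  nlinarith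

theorem fin (h0 : StartS) (hs : StepS) (hp : PotS) (he : StopS) (ht : GM.TopS) (c A T : ℕ)
    (hc : 4160 ≤ c) (hA : 106496 * c + 2 ≤ A) (hK : (A + 32) * (1664 * c) ≤ T) : CoreS := by
  intro M k hM hb
  obtain ⟨ans, a1, a2⟩ := ht
  obtain ⟨A', a2⟩ := a2 5
  obtain ⟨D, eD⟩ : ∃ D, D = T * (2 * (2 * A + 33) + 1) := ⟨_, rfl⟩
  obtain ⟨C, eC⟩ : ∃ C, C = 16 * (1664 * c) * 4 + 2 := ⟨_, rfl⟩
  obtain ⟨q, eq⟩ : ∃ q : List Bool → ℕ, q = fun x => (x.length + 2) ^ (32 * D + 64 + 7) := ⟨_, rfl⟩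
  obtain ⟨b, eb⟩ : ∃ b, b = 2 * (32 * D + 64 + 7) + 3600 * c + (D + 1 + A' + C + 7) := ⟨_, rfl⟩
  have cq : ∀ κ, Cn κ fun x _ => q x := fun κ =>
    K.cg (K.pow _ (K.add (kitOne κ).len (K.c 2))) fun x _ => by rw [eq]
  have cn : ∀ κ, Cn κ fun x _ => 2 * (M x).n := fun κ => K.mul (K.c 2) (hM κ).1.1
  have ck : ∀ κ, Cn κ fun x _ => 4 * k x + 1 := fun κ => K.add (K.mul (K.c 4) (hM κ).2) (K.c 1)
  have q2 : ∀ x, 2 * q x + 1 ≤ (x.length + 2) ^ b := fun x => by rw [eq]; exact two (by omega)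
  have qb : ∀ x, q x ≤ (x.length + 2) ^ b := fun x => by have := q2 x; omega
  have bg : ∀ x, ∀ j ≤ D * lg x, 16 * (2 * (M x).n) * (2 * j + 4) < q x ∧ 8 ≤ q x ∧ j < q x :=
    fun x j hj => by
      have u := PS.qbig (n := 1) (Nat.one_le_pow 6 _ (by omega)) (lg_le x) hj
      rw [eq]
      exact ⟨PS.qbig (lin (a := 2) (by have := (hb x).1; omega) (by omega)) (lg_le x) hj,
        by dsimp only; omega, by dsimp only; omega⟩
  have e : ∀ x P, ofO (q x) (nrm 12 ((x.length + 2) ^ b) (toO (q x) P)) = P.clip (q x) :=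
    fun x P => ofO_toO (qb x) (by have := bg x 0 (Nat.zero_le _); omega) P
  obtain ⟨E, hE⟩ := elimT recC subO 12 1 b (2 * A + 33) T
    (le_trans (Nat.mul_pos (by omega) (by omega)) hK) (by omega)
    (by rw [← eD]; exact Nat.lt_two_pow_self.le.trans (Nat.pow_le_pow_right (by omega) (by omega)))
    _ rfl (fun x => 4 * k x + 1) (fun x => toO (q x) (base0 (m0 (M x))))
    (fun x w j l o => toO (q x) (stepG (2 * (M x).n) c (q x) (4 * k x + 1) (ofO (q x) o) j w l))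
    (fun x j w H => tbG (2 * (M x).n) c (q x) (k x) (4 * k x + 1) (4 * (M x).s) (4 * (M x).t) H
      (min j (q x)) w)
    (fun x _ o => PhiG A (1664 * c * (4 * k x + 1)) (2 * (M x).n) (q x) (ofO (q x) o))
    (fun x H => if ans (his (2 * (M x).n) c (q x) (k x) H) (2 * (D * lg x)) (4 * (M x).s)
      (4 * (M x).t) (16 * (1664 * c * (4 * k x + 1)) + 2 * k x + 2) then 1 else 0)
    (fun x => 9 * (4 * (4 * c) * (2 * q x + 3) ^ 2))
    (fun x j H => Good (2 * (M x).n) c (q x) (k x) (4 * (M x).s) (4 * (M x).t)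
      (PL.Wk (M x).n (M x).ρ (M x).β (M x).dir (M x).s (M x).t) j H)
    (fun x => Pm (M x).n (M x).ρ ∧ Iv (M x).n (M x).β ∧ (M x).s < (M x).n ∧
      gen (M x).n (M x).ρ (M x).β ≤ 2 * k x)
    (fun κ hκ => ⟨ck κ, (m0C (hM κ).1).base (cq κ), cStep hκ (cn κ) (cq κ) qb (ck κ),
      PhiC (P := fun x g => ofO (q x) g) (PG.ofOC hκ (Q.lift (cq κ)) qb) A (K.mul (K.c _) (ck κ))
        (cn κ) (cq κ) (fun x => by have := bg x 0 (Nat.zero_le _); have := qb x; omega) qb,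
      K.mul (K.c 9) (K.mul (K.c (4 * (4 * c))) (K.pow 2 (K.add (K.mul (K.c 2) (cq κ)) (K.c 3))))⟩)
    (fun x => by rw [eq, eb]; exact PS.wbig)
    (fun x hx => (h0 (M x) c (q x) (k x) 0 0 _ hx.1 hx.2.1 hx.2.2.1 hx.2.2.2
      (by have := bg x 0 (Nat.zero_le _); omega) (bg x 0 (Nat.zero_le _)).2.1 (e x _)).1)
    (fun x hx => (h0 (M x) c (q x) (k x) A _ _ hx.1 hx.2.1 hx.2.2.1 hx.2.2.2
      (by have := bg x 0 (Nat.zero_le _); omega) (bg x 0 (Nat.zero_le _)).2.1 (e x _)).2.trans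
        (ar1 (hb x).1))
    (fun x _ j hj H w _ h => by
      rw [← eD] at hj
      obtain ⟨u1, u2, u3⟩ := bg x j hj.le
      rw [min_eq_left u3.le]
      exact hs _ _ _ _ _ _ _ _ _ _ _ _ _ h u1 u2 u3 (qb x) (by omega) le_rfl (e x _))
    (fun x _ j hj H h => by
      rw [← eD] at hj
      obtain ⟨u1, u2, u3⟩ := bg x j hj.le
      obtain ⟨w, w1, w2⟩ := hp _ _ _ _ (4 * k x + 1) _ _ _ A T _ _ H (fun w => clip (4 * k x + 1)
        ((x.length + 2) ^ b) (tbG (2 * (M x).n) c (q x) (k x) (4 * k x + 1) (4 * (M x).s)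
          (4 * (M x).t) H (min j (q x)) w)) h u1 u2 u3 hc hA hK le_rfl le_rfl
      exact ⟨w, w1, by rw [e]; exact w2⟩)
  rw [← eD] at hE
  obtain ⟨κ, eκ⟩ : ∃ κ : List Bool → ℕ,
    κ = fun x => (4 * E + A' + C + 12 + 1) * (k x + 1) * lg x ^ 2 := ⟨_, rfl⟩
  have k1 : ∀ x, E * (4 * k x + 1 + 1) * lg x ^ 2 ≤ κ x ∧ A' * lg x ^ 2 ≤ κ x ∧
      C * (k x + 1) + 13 * k x + 13 ≤ κ x := fun x => by
    rw [eκ]; exact ar2 E A' C _ (Nat.pow_pos (Nat.succ_pos _))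
  have k2 : ∀ x, 16 * (1664 * c * (4 * k x + 1)) + 2 * k x + 2 ≤ C * (k x + 1) := fun x => by
    rw [eC]; exact ar3 _ _
  have k3 : ∀ x, C * (k x + 1) * (2 * (2 * (M x).n)) + C * (k x + 1) + 1 ≤ (x.length + 2) ^ b :=
    fun x => ar4 (hb x).1 (hb x).2 (by omega)
  have X : XC κ (fun x => (x.length + 2) ^ b) q (fun x => 2 * (M x).n) k :=
    ⟨fun x => by have := (k1 x).2.2; omega, Q.lift (cq κ), q2,
      ⟨Q.lift (K.mul (K.c 2) (cn κ)), fun x _ => lin (a := 4) (by have := (hb x).1; omega) (by omega)⟩,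
      ⟨(hM κ).2, fun x => by have := (k1 x).2.2; omega,
        fun x => lin (a := 1) (by have := (hb x).2; omega) (by omega)⟩⟩
  have cs : Nq κ (fun x => (x.length + 2) ^ b) (fun x => (x.length + 2) ^ b)
    fun x _ _ => 4 * (M x).s := Q.lift (K.mul (K.c 4) (hM κ).1.2.2.2.2.1)
  have ct : Nq κ (fun x => (x.length + 2) ^ b) (fun x => (x.length + 2) ^ b)
    fun x _ _ => 4 * (M x).t := Q.lift (K.mul (K.c 4) (hM κ).1.2.2.2.2.2)
  obtain ⟨f, f1, f2, f3⟩ := hE κ (fun x => (k1 x).1)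
    (X.tb cs ct ⟨ck κ, fun x => by have := (k1 x).2.2; omega,
        fun x => lin (a := 4) (by have := (hb x).2; omega) (by omega)⟩
      (Q.min (Q.v 0) X.cq) (fun _ _ _ => min_le_right _ _) (Q.v 1))
    (a2 κ _ _ (fun x => 16 * (1664 * c * (4 * k x + 1)) + 2 * k x + 2) (fun x => 2 * (M x).n)
      (fun x => 2 * (D * lg x)) _ _ (fun x g => his (2 * (M x).n) c (q x) (k x) g)
      (fun x => ⟨lin (a := 4) (by have := (hb x).1; omega) le_rfl, (k1 x).2.1,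
        Nat.pow_le_pow_right (by omega) (by omega), by
          have := Nat.mul_le_mul_right (2 * (2 * (M x).n)) (k2 x)
          have := k3 x
          omega⟩) (fun _ _ => rfl) X.his
      ⟨K.add (K.add (K.mul (K.c 16) (K.mul (K.c _) (ck κ))) (K.mul (K.c 2) (hM κ).2)) (K.c 2),
        fun x => by have := (k1 x).2.2; have := k2 x; omega,
        fun x => by have := k2 x; have := k3 x; omega⟩
      ⟨Q.lift (K.mul (K.c 2) (K.mul (K.c D) (lgC κ))),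
        fun x _ _ => by have := (bg x _ le_rfl).2.2; have := q2 x; omega⟩ cs ct)
  refine ⟨4 * E + A' + C + 12, f, eκ ▸ f1, fun x => ?_, fun x p1 p2 p3 p4 p5 => ?_⟩
  · obtain ⟨H, h⟩ := f2 x
    rw [h]
    split_ifs <;> omega
  obtain ⟨H, g, z, h⟩ := f3 x ⟨p1, p2, p3, p5⟩
  have u := a1 _ _ (4 * (M x).s) (4 * (M x).t) _ g.2.1 g.2.2.1 (show _ < 2 * (2 * (M x).n) by omega)
    (show _ < 2 * (2 * (M x).n) by omega)
    (he _ _ _ _ _ _ _ A _ _ H g (bg x _ le_rfl).2.2 (by omega) z)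
  rw [h, ← g.2.2.2.2]
  refine Iff.trans ?_ u
  split_ifs with v <;> simp [v]

theorem core (h0 : StartS) (hs : StepS) (hp : PotS) (he : StopS) (ht : GM.TopS) : CoreS :=
  fin h0 hs hp he ht 4160 _ _ le_rfl le_rfl le_rfl

end Pool.Agent.MP_1a6d78_lc.GX
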