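import Pool.Agent.MP_1a6d78_lc.GX.Spec

/-! PROJECT GX: rounds of cell maps are rounds of dart maps; the dead sets are basins. -/

namespace Pool.Agent.MP_1a6d78_lc.GX

open Classical ED PR GN PG PG.Ct

variable {M : Cm} {g x y c e a b k L : ℕ} {X : ℕ → Prop} {H : Hs}

theorem sc_rg (O : M.Ok) (h : x < 4 * M.n) :
    Sc (4 * M.n) (fun p => PL.r3 (M.lk p)) x y ↔ M.Rg x y := by
  have p := PL.r3_pm.comp (ok_pl O).iv.pm
  refine ⟨Sc.ind p.1 h (rg_refl M x) fun d _ u => rg_trans u (rg_symm O ?_), fun u =>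
    rg_ind (Q := fun d => Sc _ _ x d) u (Sc.refl _ h) fun d v => v.trans p.1 h ?_⟩
  · have := rg_nr M (PL.r3 (M.lk d))
    rwa [nr_psi O] at this
  · have l := v.lt p.1 h
    have m : M.nr d < 4 * M.n := ((ok_pl O).iv _ (Two.pm.1 d l)).1
    have := (Sc.step p.1 m).symm p m
    rwa [Cm.nr, O.inv, show PL.r3 (r4 d) = d by unfold PL.r3 r4; omega] at this

/-- Vertices are even regions. -/
theorem vx_rg (P : PoK) (O : M.Ok) (h : M.al (a / 2)) :
    Sc (2 * M.n) (tr M.lk) a b ↔ M.Rg (2 * a) (2 * b) := by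
  have := O.lt _ h
  rw [P.vx (ok_pl O) (by omega) h, sc_rg O (by omega)]

/-- Faces are odd regions. -/
theorem fa_rg (P : PoK) (O : M.Ok) (h : M.al (a / 2)) :
    Sc (2 * M.n) (fc (tr M.lk) M.al) a b ↔ M.Rg (2 * a + 1) (2 * b + 1) := by
  have := O.lt _ h
  rw [P.fa (ok_pl O) (by omega) h, sc_rg O (by omega)]

theorem dd_inc (hx : M.Top x) (h : M.Dd x c) (u : M.Rg (4 * c) (4 * e + 2)) : M.Dd x e := by
  cases h with
  | top k => have := crit_mod hx.2 (rg_trans k u); omega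
  | step _ l => exact l e u

theorem dd_inj (O : M.Ok) (F : M.Fam X) (hx : X x) (hy : X y) (h : M.Dd x c) :
    ∀ e, M.Dd y e → M.Rg (4 * c) (4 * e) → x = y := by
  induction h with
  | top k =>
    intro e u v
    cases u with
    | top l => exact F.one x y hx hy (rg_trans (rg_trans k v) (rg_symm O l))
    | step l _ =>
      obtain ⟨w, l⟩ := l
      have := crit_mod (F.top x hx).2 (rg_trans (rg_trans k v) l)
      omega
  | step k _ ih =>
    intro e u v
    obtain ⟨w, k⟩ := k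
    exact ih w k w (dd_inc (F.top y hy) u (rg_trans (rg_symm O v) k)) (rg_refl _ _)

/-- Even regions of an even frame. -/
theorem tw_vx (P : PoK) (O : M.Ok) (hg : g < 8) (ev : fs g 0 % 2 = 0) (h : M.al c) :
    ((M.tw g).Rg (4 * c) (4 * e) ↔
      Sc (2 * M.n) (tr M.lk) (2 * c + fs g 0 / 2) (2 * e + fs g 0 / 2)) ∧
    ((M.tw g).Rg (4 * c) (4 * e + 2) ↔
      Sc (2 * M.n) (tr M.lk) (2 * c + fs g 0 / 2) (2 * e + (1 - fs g 0 / 2))) := by
  have l := fs_lt g 0
  have i : M.al ((2 * c + fs g 0 / 2) / 2) := by rwa [show (2 * c + fs g 0 / 2) / 2 = c by omega]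
  have e0 : ∀ c, Ct.ts g (4 * c) = 2 * (2 * c + fs g 0 / 2) := fun c => by
    unfold Ct.ts fs at *
    split_ifs at * <;> omega
  have e2 : Ct.ts g (4 * e + 2) = 2 * (2 * e + (1 - fs g 0 / 2)) := by
    unfold Ct.ts fs at *
    split_ifs at * <;> omega
  rw [tw_rg O hg, tw_rg O hg, vx_rg P O i, vx_rg P O i, e0, e0, e2]
  exact ⟨Iff.rfl, Iff.rfl⟩

theorem lv_tr (P : PoK) (O : M.Ok) : Lv M.n (tr M.lk) M.al := P.lv (ok_pl O) O.lt

/-- A dead cell is in the component of its killer. -/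
theorem dd_conn (P : PoK) (O : M.Ok) (hg : g < 8) (ev : fs g 0 % 2 = 0) (hx : M.al x)
    (h : (M.tw g).Dd x c) :
    Conn (2 * M.n) (tr M.lk) (ed M.al) (2 * x + fs g 0 / 2) (2 * c + fs g 0 / 2) := by
  have O' := tw_ok O hg
  have l := fs_lt g 0
  have p := (lv_tr P O).pm
  induction h with
  | top k => exact ((tw_vx P O hg ev hx).1.1 k).conn' _ p (by have := O.lt x hx; omega)
  | @step c k m ih =>
    obtain ⟨w, k⟩ := k
    have aw : M.al w := tw_al O hg ▸ dd_al O' (tw_al O hg ▸ hx) (m w k)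
    have ac : M.al c := by
      have := (rg_al O' k).1 (by rwa [show (4 * w + 2) / 4 = w by omega, tw_al O hg])
      rwa [show 4 * c / 4 = c by omega, tw_al O hg] at this
    have lw := O.lt w aw
    have i := Conn.gam (tr M.lk) (ed M.al) (show 2 * w + fs g 0 / 2 < 2 * M.n by omega)
    rw [ed_pos (by rwa [show (2 * w + fs g 0 / 2) / 2 = w by omega]),
      show PL.fl (2 * w + fs g 0 / 2) = 2 * w + (1 - fs g 0 / 2) by
        unfold PL.fl; split_ifs <;> omega] at i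
    exact (ih w k).trans (i.trans (((tw_vx P O hg ev ac).2.1 k).conn' _ p
      (by have := O.lt c ac; omega)).symm)

/-- A dead cell is in the core iff its killer is. -/
theorem dd_co (P : PoK) (O : M.Ok) (hg : g < 8) (ev : fs g 0 % 2 = 0) (K : HiK H L) (hk : k ≤ L)
    (en : H.n = M.n) (es : H.σ k = tr M.lk) (ea : H.A k = M.al) (hx : M.al x)
    (h : (M.tw g).Dd x c) : H.Co k x ↔ H.Co k c := by
  have l := fs_lt g 0
  have i := dd_conn P O hg ev hx h
  have ac : M.al c := tw_al O hg ▸ dd_al (tw_ok O hg) (tw_al O hg ▸ hx) h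
  have := O.lt x hx
  have := O.lt c ac
  rw [← en, ← es, ← ea] at i
  have e : ∀ c, (2 * c + fs g 0 / 2) / 2 = c := fun c => by omega
  exact ⟨fun u => e c ▸ K.clo k hk _ (by omega) _ ((e x).symm ▸ u) i,
    fun u => e x ▸ K.clo k hk _ (by omega) _ ((e c).symm ▸ u) i.symm⟩

theorem dd_ac (P : PoK) (O : M.Ok) (hg : g < 8) (ev : fs g 0 % 2 = 0) (hx : (M.tw g).Top x)
    (h : (M.tw g).Dd x c) : ¬Rc M.n (tr M.lk) M.al (2 * c + 1) (2 * c) := fun u => by
  have O' := tw_ok O hg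
  have ac := dd_al O' hx.1 h
  have ac' : M.al c := tw_al O hg ▸ ac
  have := (tw_cy (a := 0) O hg).2 (cy_par O (a := 0) (by omega)
    ((cy_iff O).2 ⟨ac', (P.cyc (ok_pl O) (O.lt c ac') ac').1 u⟩))
  exact dd_not O' hx h this.2

/-- BASINS -/
theorem bas (P : PoK) (O : M.Ok) (hg : g < 8) (ev : fs g 0 % 2 = 0) (K : HiK H L) (hk : k ≤ L)
    (en : H.n = M.n) (es : H.σ k = tr M.lk) (ea : H.A k = M.al) (F : (M.tw g).Fam X) :
    H.Bas k (fun x => X x ∧ H.Co k x) (M.tw g).Dd (fs g 0 / 2) := by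
  have O' := tw_ok O hg
  have al : ∀ x c, X x → (M.tw g).Dd x c → M.al c := fun x c u v =>
    tw_al O hg ▸ dd_al O' (F.top x u).1 v
  refine ⟨by have := fs_lt g 0; omega, fun x c u v => (dd_co P O hg ev K hk en es ea
    (tw_al O hg ▸ (F.top x u.1).1) v).1 u.2, fun x c e u v _ w => ?_, fun x c u v => ?_,
    fun x y c e u v w z r => ?_⟩
  · rw [en, es] at w
    exact dd_inc (F.top x u.1) v ((tw_vx P O hg ev (al x c u.1 v)).2.2 w)
  · rw [en, es, ea]
    exact dd_ac P O hg ev (F.top x u.1) v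
  · rw [en, es] at r
    exact dd_inj O' F u.1 v.1 w e z ((tw_vx P O hg ev (al x c u.1 w)).1.2 r)

/-! ### Rounds in a frame -/

variable {N : Cm}

theorem bk_lk (hg : g < 8) (p : ℕ) : (N.tw (gi g)).lk (tp g p) = tp g (N.lk p) := by
  rw [← tw_lk hg, tw_tw' hg]

/-- A kill in the frame `g` is a round. -/
theorem op_kill (R : PoR) (T : TwG) (O : M.Ok) (hg : g < 8) (hX : ∀ x, X x → (M.tw g).Top x)
    (S : (M.tw g).Smo N ((M.tw g).Dead X)) :
    Op M.n (tr M.lk) (tr (N.tw (gi g)).lk) M.al N.al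
      fun c => fs g 0 % 2 = 1 ∧ M.al c ∧ ¬N.al c := by
  have O' := tw_ok O hg
  have ON := smo_ok O' S
  have o := ok_pl (tw_ok ON (gi_lt hg))
  rw [tw_al ON (gi_lt hg), tw_n, S.n, tw_n] at o
  have sub : ∀ c, N.al c → M.al c := fun c u => tw_al O hg ▸ ((S.al c).1 u).1
  have cv : ∀ p < 4 * M.n, N.al (p / 4) →
      PL.Cv M.lk (PL.sm (fs g 0)) N.al p ((N.tw (gi g)).lk p) := fun p _ u => by
    have := T.cv O hg (S.lk (tp (gi g) p) (by rwa [tp_div]))
    rwa [← bk_lk hg, (tp_tp hg p).2] at this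
  have dd : ∀ d, M.al d → ¬N.al d → ∃ x, X x ∧ (M.tw g).Dd x d := fun d u v =>
    by_contra fun w => v ((S.al d).2 ⟨tw_al O hg ▸ u, w⟩)
  by_cases ev : fs g 0 % 2 = 1
  · simp only [ev, true_and]
    refine R.k1 (ok_pl O) o O.lt sub cv ev fun d _ u v => ?_
    obtain ⟨x, k1, k2⟩ := dd d u v
    refine ((cy_iff O).1 (cy_par O ?_ ((tw_cy O hg).1 (dd_cy O' (hX x k1) k2)))).2
    clear * - ev hg
    interval_cases g <;> revert ev <;> decide
  · simp only [ev, false_and]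
    refine R.k0 (ok_pl O) o O.lt sub cv (by omega) fun d _ u v w => ?_
    obtain ⟨x, k1, k2⟩ := dd d u v
    exact dd_not O' (hX x k1) k2
      ((tw_cy (a := 0) O hg).2 (cy_par O (a := 0) (by omega) ((cy_iff O).2 ⟨u, w⟩))).2

/-- A cut in the frame `g` is a round. -/
theorem op_cut (R : PoR) (T : TwG) (O : M.Ok) (hg : g < 8) (S : (M.tw g).Cutm N X) :
    Op M.n (tr M.lk) (tr (N.tw (gi g)).lk) M.al N.al
      fun y => (M.tw g).Rk X (if fs g 0 % 2 = 1 then 0 else 3) y := by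
  have O' := tw_ok O hg
  have C := R.cut (ok_pl O) O.lt (T.cut O hg (cutm_cut O' S))
  have e : ∀ a, a = 0 ∨ a = 3 →
      (fp g (ep 0 a) = ct (fp g 0) ↔ a = if fs g 0 % 2 = 1 then 0 else 3) := fun a u => by
    rcases u with rfl | rfl <;> interval_cases g <;> decide
  rw [cutm_al O' S, tw_al O hg]
  refine (funext fun y => propext ⟨?_, ?_⟩ : (fun y => _) = fun y => _) ▸ C
  · rintro ⟨⟨v, a, u, w⟩, r⟩
    have k := en_kd w.1
    rw [k.1, e a k.2] at r
    exact ⟨v, u, r ▸ w⟩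
  · rintro ⟨v, u, w⟩
    have k := en_kd w.1
    exact ⟨⟨v, _, u, w⟩, by rw [k.1, e _ k.2]⟩

/-- BRIDGE -/
theorem br (P : PoK) (R : PoR) (S : HiS) (T : TwG) : Br where
  cut O hg C := op_cut R T O hg C
  kill {N L g X} O hg hX C := by
    have O' := tw_ok O (gi_lt hg)
    have := op_kill (M := N.tw (gi g)) (N := L) (X := X) R T O' hg (by rwa [tw_tw' hg])
      (by rwa [tw_tw' hg])
    rwa [tw_al O (gi_lt hg)] at this
  bas Z L i N g X ok hi O hg en es ea F ev := by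
    have O' := tw_ok O (gi_lt hg)
    have ea' : Z.A i = (N.tw (gi g)).al := by rwa [tw_al O (gi_lt hg)]
    have b := bas (X := X) P O' hg ev (S Z L ok) hi en es ea' (by rwa [tw_tw' hg])
    rw [tw_tw' hg] at b
    refine ⟨b, fun x y u v => (dd_co P O' hg ev (S Z L ok) hi en es ea' ?_ ?_).2⟩
    · rw [tw_al O (gi_lt hg)]
      exact (F.top x u).1
    · rwa [tw_tw' hg]

end Pool.Agent.MP_1a6d78_lc.GX
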