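import Pool.Agent.MP_1a6d78_lc.GX.Stop

/-! PROJECT GX: rounds of cell maps are rounds of dart maps. -/

namespace Pool.Agent.MP_1a6d78_lc.GX

open Classical ED PR SC GL PG GN GM PG.Ct

variable {M N L : Cm} {g x y c e : ℕ} {R X : ℕ → Prop}

theorem ct_iff (hg : g < 8) (a : ℕ) (h : a = 0 ∨ a = 3) :
    fp g (ep 0 a) = ct (fp g 0) ↔ a = if fs g 0 % 2 = 1 then 0 else 3 := by
  rcases h with rfl | rfl <;> revert g <;> decide

theorem b_cut (pr : PoR) (tw : TwG) (H : M.Ok) (hg : g < 8) (S : (M.tw g).Cutm N R) :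
    Op M.n (tr M.lk) (tr (N.tw (gi g)).lk) M.al N.al
      fun y => (M.tw g).Rk R (if fs g 0 % 2 = 1 then 0 else 3) y := by
  have u := pr.cut (ok_pl H) H.lt (tw.cut H hg (cutm_cut (tw_ok H hg) S))
  have k := ct_iff hg
  rw [cutm_al (tw_ok H hg) S, tw_al H hg]
  convert u using 2 with y
  constructor
  · rintro ⟨v, h1, h2⟩
    exact ⟨⟨v, _, h1, h2⟩, by rw [(en_kd h2.1).1]; exact (k _ (en_kd h2.1).2).2 rfl⟩
  · rintro ⟨⟨v, a, h1, h2⟩, h3⟩
    rw [(en_kd h2.1).1] at h3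
    exact ⟨v, h1, (k _ (en_kd h2.1).2).1 h3 ▸ h2⟩

theorem not_cy (H : N.Ok) (hg : g < 8) (ev : fs g 0 % 2 = 0) (hx : N.Top x) (d : N.Dd x c) :
    ¬PL.Cyc N.n (N.tw (gi g)).lk 0 c := fun u => by
  have H0 := tw_ok H (gi_lt hg)
  have v := (tw_cy H0 hg).2 (cy_par H0 (b := fs g 0) (by omega)
    ((cy_iff H0).2 ⟨by rw [tw_al H (gi_lt hg)]; exact dd_al H hx.1 d, u⟩))
  rw [tw_tw' hg] at v
  exact dd_not H hx d v.2

theorem b_kill (pr : PoR) (tw : TwG) (H : N.Ok) (hg : g < 8) (hX : ∀ x, X x → N.Top x)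
    (S : N.Smo L (N.Dead X)) : Op N.n (tr (N.tw (gi g)).lk) (tr (L.tw (gi g)).lk) N.al L.al
      fun y => fs g 0 % 2 = 1 ∧ N.al y ∧ ¬L.al y := by
  have HL := smo_ok H S
  have H0 := tw_ok H (gi_lt hg)
  have o0 := ok_pl H0
  have o1 := ok_pl (tw_ok HL (gi_lt hg))
  rw [tw_al H (gi_lt hg)] at o0
  rw [tw_al HL (gi_lt hg), tw_n, S.n] at o1
  have cv : ∀ p < 4 * N.n, L.al (p / 4) →
      PL.Cv (N.tw (gi g)).lk (PL.sm (fs g 0)) L.al p ((L.tw (gi g)).lk p) := fun p _ u => by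
    have v := S.lk (tp (gi g) p) (by rwa [tp_div])
    rw [← tw_tw' hg N] at v
    have w := tw.cv H0 hg v
    rw [(tp_tp hg p).2] at w
    unfold Cm.tw
    rw [gi_gi hg]
    unfold Cm.tw at w
    rwa [gi_gi hg] at w
  have dd : ∀ d, N.al d → ¬L.al d → N.Dead X d := fun d u v => by_contra fun w =>
    v ((S.al d).2 ⟨u, w⟩)
  by_cases ev : fs g 0 % 2 = 1
  · simp only [ev, true_and]
    refine pr.k1 o0 o1 H.lt (fun c u => ((S.al c).1 u).1) cv ev fun d _ u v => ?_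
    have w := dead_cy H hX (dd d u v)
    rw [← tw_tw' hg N, tw_cy H0 hg] at w
    exact ((cy_iff H0).1 (cy_par H0 (by unfold fs at *; split_ifs at * <;> omega) w)).2
  · simp only [ev, false_and]
    refine pr.k0 o0 o1 H.lt (fun c u => ((S.al c).1 u).1) cv (by omega) fun d _ u v => ?_
    obtain ⟨x, hx, w⟩ := dd d u v
    exact not_cy H hg (by omega) (hX x hx) w

theorem rg_sc3 (H : M.Ok) (hx : x < 4 * M.n) (h : M.Rg x y) :
    Sc (4 * M.n) (fun p => PL.r3 (M.lk p)) x y := by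
  have p := (PL.r3_pm (n := M.n)).comp (ok_pl H).iv.pm
  refine rg_ind h (Sc.refl _ hx) fun d k => k.trans p.1 hx ?_
  have l : M.nr d < 4 * M.n := ((ok_pl H).iv _ (Two.pm.1 d (k.lt p.1 hx))).1
  refine Sc.symm p l ?_
  have := Sc.step p.1 l
  rwa [show PL.r3 (M.lk (M.nr d)) = d by
    rw [Cm.nr, H.inv]; unfold PL.r3 r4; omega] at this

/-- Vertices of the dart map are regions in the frame. -/
theorem vx_rg (po : PoK) (H : N.Ok) (hg : g < 8) (ev : fs g 0 % 2 = 0) (h : N.al c) (j : ℕ)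
    (hj : j < 2) : Sc (2 * N.n) (tr (N.tw (gi g)).lk) (2 * c + fs g 0 / 2)
      (2 * e + (if j = 0 then fs g 0 / 2 else 1 - fs g 0 / 2)) ↔ N.Rg (4 * c) (4 * e + 2 * j) := by
  have H0 := tw_ok H (gi_lt hg)
  have o0 := ok_pl H0
  have := fs_lt g 0
  have := H.lt c h
  have r := tw_rg (x := 4 * c) (y := 4 * e + 2 * j) H0 hg
  rw [tw_tw' hg, show Ct.ts g (4 * c) = 2 * (2 * c + fs g 0 / 2) by
      unfold Ct.ts fs at *; split_ifs at * <;> omega,
    show Ct.ts g (4 * e + 2 * j) = 2 * (2 * e + (if j = 0 then fs g 0 / 2 else 1 - fs g 0 / 2)) by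
      unfold Ct.ts fs at *; split_ifs at * <;> omega] at r
  rw [r]
  refine (po.vx o0 (show _ < 2 * N.n by omega) ?_).trans
    ⟨sc_rg H0 (show _ < 4 * N.n by omega), rg_sc3 H0 (show _ < 4 * N.n by omega)⟩
  rwa [tw_al H (gi_lt hg), show (2 * c + fs g 0 / 2) / 2 = c by omega]

theorem dd_cl (hx : N.Top x) (d : N.Dd x c) (r : N.Rg (4 * c) (4 * e + 2)) :
    N.Dd x e := by
  cases d with
  | top k => exact absurd (crit_mod hx.2 (rg_trans k r)) (by omega)
  | step _ k => exact k e r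

theorem dd_same (H : N.Ok) (d : N.Dd x c) (r : N.Rg (4 * c) (4 * e)) : N.Dd x e := by
  cases d with
  | top k => exact .top (rg_trans k r)
  | step j k => exact .step (j.imp fun _ u => rg_trans (rg_symm H r) u) fun u v => k u (rg_trans r v)

theorem dd_one (H : N.Ok) (hx : N.Top x) (hy : N.Top y) (d : N.Dd x c) (d' : N.Dd y c) :
    N.Rg (4 * x) (4 * y) := by
  induction d with
  | top k =>
    cases d' with
    | top j => exact rg_trans k (rg_symm H j)
    | step j _ =>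
      obtain ⟨u, j⟩ := j
      exact absurd (crit_mod hx.2 (rg_trans k j)) (by omega)
  | step j _ ih =>
    obtain ⟨u, j⟩ := j
    exact ih u j (dd_cl hy d' j)

theorem b_bas (po : PoK) (hi : HiS) (Z : Hs) (l i : ℕ) (ok : Z.Ok l) (hl : i ≤ l) (H : N.Ok)
    (hg : g < 8) (en : Z.n = N.n) (es : Z.σ i = tr (N.tw (gi g)).lk) (ea : Z.A i = N.al)
    (F : N.Fam X) (ev : fs g 0 % 2 = 0) : Z.Bas i (fun x => X x ∧ Z.Co i x) N.Dd (fs g 0 / 2) ∧
      ∀ x y, X x → N.Dd x y → Z.Co i y → Z.Co i x := by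
  have K := hi Z l ok
  have := fs_lt g 0
  have co : ∀ c e j, j < 2 → N.al c → N.Rg (4 * c) (4 * e + 2 * j) → (Z.Co i c ↔ Z.Co i e) :=
    fun c e j hj h r => by
      have u := (vx_rg po H hg ev h j hj).2 r
      have lc := H.lt c h
      have le : 4 * e + 2 * j < 4 * N.n :=
        rg_lt H r (by rwa [Nat.mul_div_cancel_left _ four_pos])
      rw [← en, ← es] at u
      have v := Sc.conn' (ed (Z.A i)) (K.lv i hl).pm (by omega) u
      have a := (K.clo i hl _ (by omega) _ · v)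
      have b := (K.clo i hl _ (by split_ifs <;> omega) _ · v.symm)
      rw [show (2 * c + fs g 0 / 2) / 2 = c by omega,
        show (2 * e + if j = 0 then fs g 0 / 2 else 1 - fs g 0 / 2) / 2 = e by
          split_ifs <;> omega] at a b
      exact ⟨a, b⟩
  have cd : ∀ x c, X x → N.Dd x c → (Z.Co i x ↔ Z.Co i c) := fun x c hx d => by
    induction d with
    | top k => exact co _ _ 0 two_pos (F.top x hx).1 k
    | @step c j k ih =>
      obtain ⟨u, w⟩ := id j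
      exact (ih u w).trans (co _ _ 1 one_lt_two (dd_al H (F.top x hx).1 (.step j k)) w).symm
  refine ⟨⟨by omega, fun x c h d => (cd x c h.1 d).1 h.2, fun x c e h d _ u => ?_,
    fun x c h d u => ?_, fun x y c e h k d d' u => ?_⟩, fun x y h d => (cd x y h d).2⟩
  · rw [en, es] at u
    exact dd_cl (F.top x h.1) d
      ((vx_rg po H hg ev (dd_al H (F.top x h.1).1 d) 1 one_lt_two).1 u)
  · have a := dd_al H (F.top x h.1).1 d
    have o0 := ok_pl (tw_ok H (gi_lt hg))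
    rw [tw_al H (gi_lt hg)] at o0
    rw [en, es, ea] at u
    exact not_cy H hg ev (F.top x h.1) d ((po.cyc o0 (H.lt c a) a).1 u)
  · rw [en, es] at u
    exact F.one x y h.1 k.1 (dd_one H (F.top x h.1) (F.top y k.1)
      (dd_same H d ((vx_rg po H hg ev (dd_al H (F.top x h.1).1 d) 0 two_pos).1 u)) d')

theorem brH (po : PoK) (pr : PoR) (hi : HiS) (tw : TwG) : Br :=
  ⟨b_cut pr tw, b_kill pr tw, fun Z l i _ _ _ => b_bas po hi Z l i⟩

end Pool.Agent.MP_1a6d78_lc.GX
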