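import Pool.Agent.MP_1a6d78_lc.GX.Pot
import Pool.Agent.MP_1a6d78_lc.GX.Gad

/-! PROJECT GX: the first level. -/

namespace Pool.Agent.MP_1a6d78_lc.GX

open Classical ED PR SC GL PG GN GM PG.Ct

theorem rc_go {n a b : ℕ} {σ ρ : ℕ → ℕ} {A : ℕ → Prop} (e : ∀ d < 2 * n, σ d = ρ d)
    (hA : ∀ c < n, A c) : Rc n σ A a b ↔ PL.Go n ρ a b := by
  have : (fun a b => a < 2 * n ∧ (b = σ a ∨ (a % 2 = 0 ∧ A (a / 2) ∧ b = a + 1))) =
      fun a b => a < 2 * n ∧ (b = ρ a ∨ (a % 2 = 0 ∧ b = a + 1)) := by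
    funext a b
    exact propext (and_congr_right fun u => by rw [e a u, and_iff_right (hA _ (by omega))])
  unfold Rc PL.Go
  rw [this]

theorem startS (G : GnA) (po : PoK) (hC : CnS) : StartS := by
  intro M c q γ A θ o p i hs hg hq q8 e
  have p' := PL.gad_pm (us := M.dir) p i
  have o' := PL.ok_lam p'
  have em : m0 M = ⟨2 * M.n, fun p => if p < 4 * (2 * M.n) then
      PL.lam (2 * M.n) (PL.gad M.ρ M.β M.dir) p else p⟩ := by
    unfold m0
    congr 1
    funext x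
    exact if_congr (and_iff_left_of_imp fun u => (o'.iv x u).1) rfl rfl
  obtain ⟨ok, al, -⟩ := trunc (a := 0) (m0 M) em o'
  obtain ⟨ls, I, t⟩ := base0S _ ok
  have hq' : 16 * (m0 M).n * (0 + 2) < q := hq
  have J := (clipS _ _ _ ls q I hq' (by omega)).1
  rw [← e] at J
  obtain ⟨s0, a0⟩ := his_eq (c := c) (q := q) (γ := γ) (i := 2 * 0) (H := his0 o)
    (by rw [stg0]; exact J)
  change (his (2 * M.n) c q γ (his0 o)).σ 0 = _ at s0
  change (his (2 * M.n) c q γ (his0 o)).A 0 = _ at a0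
  have et : ∀ d < 2 * (2 * M.n), tr (m0 M).lk d = PL.gad M.ρ M.β M.dir d := fun d hd => by
    rw [← po.lam p' d hd, em]
    unfold tr
    simp only [if_pos (show 2 * d < 4 * (2 * M.n) by omega)]
  have gn0 : gn (2 * M.n) (tr (m0 M).lk) (m0 M).al ≤ 2 * γ := by
    refine le_trans (le_of_eq ?_) ((gad_gen (us := M.dir) p i).trans hg)
    exact (G.cg p' (PL.fl_iv _) (fun d hd => (et d hd).symm) fun d hd =>
      (if_pos ((al _).2 (by omega))).symm).symm
  refine ⟨⟨⟨m0 M, ls, rfl, J⟩, ⟨?_, fun k hk => absurd hk (by omega), fun ρ β a b u => ?_⟩,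
    fun k hk => absurd hk (by omega), by rw [s0, a0]; exact gn0, ?_⟩, ?_⟩
  · rw [s0, a0]
    exact po.lv (ok_pl ok) ok.lt
  · rw [s0, a0] at u
    exact hC _ γ ρ β a b (u.trans gn0)
  · rw [s0, a0, rc_go et fun c hc => (al c).2 hc, gad_wk p i hs]
  · have := phi_eq A θ J hq'
    rw [e, (clipS _ _ _ ls q I hq' (by omega)).2, ← e] at this
    refine (le_of_eq this).trans (ite_le.trans (Nat.add_le_add (Nat.mul_le_mul_left _ ?_) t))
    exact Nat.succ_le_succ ((Nat.sub_le _ _).trans (cnt_le _ _))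

end Pool.Agent.MP_1a6d78_lc.GX
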