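import Pool.Agent.MP_1a6d78_lc.GX.Pot

/-! PROJECT GX: few items when the potential is zero. -/

namespace Pool.Agent.MP_1a6d78_lc.GX

open Classical ED PR SC GL PG GN GM PG.Ct

variable {M : Cm} {x y c : ℕ}

theorem sc_rg (H : M.Ok) (hx : x < 4 * M.n) (h : Sc (4 * M.n) (fun p => PL.r3 (M.lk p)) x y) :
    M.Rg x y :=
  Sc.ind (PL.r3_pm.comp (ok_pl H).iv.pm).1 (Q := M.Rg x) hx (rg_refl M x)
    (fun d _ k => rg_trans k (by simpa only [nr_psi H] using rg_back H (PL.r3 (M.lk d)))) h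

theorem tr_par (H : M.Ok) (h : M.al c) :
    (tr M.lk (2 * c) % 2 = 1 ↔ M.lk (4 * c) % 4 = 3) ∧ M.lk (4 * c) % 2 = 1 := by
  have := H.par (4 * c) (by rwa [Nat.mul_div_cancel_left _ four_pos])
  rw [tr, show 2 * (2 * c) = 4 * c by omega, if_neg h]
  omega

/-- The label of the corner after the tail of `c`. -/
def cor (M : Cm) (c : ℕ) : ℕ := if M.lk (4 * c) % 4 = 3 then PL.r3 (M.lk (4 * c)) else 4 * c + 3

theorem cor_alt (H : M.Ok) (h : M.al c) : M.Alt (cor M c) := by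
  have := (tr_par H h).2
  unfold Cm.Alt cor
  split_ifs with u
  · rw [nr_psi H]
    unfold PL.r3
    omega
  · rw [Cm.nr, show r4 (4 * c + 3) = 4 * c by unfold r4; omega]
    omega

theorem cor_inj (H : M.Ok) (e : cor M x = cor M y) : x = y := by
  unfold cor at e
  split_ifs at e
  · have := congrArg M.nr e
    rw [nr_psi H, nr_psi H] at this
    omega
  all_goals try unfold PL.r3 at e
  all_goals omega

theorem cnt_sad (po : PoK) (H : M.Ok) :
    cnt M.n (fun c => M.al c ∧ sad M.n (tr M.lk) M.al c) ≤ 4 * M.mu := by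
  refine le_trans (cnt_inj (cor M) ?_ fun _ _ _ _ _ _ => cor_inj H) (cnt_all H).2
  rintro c hc ⟨h, e, he, ne, p, u⟩
  obtain ⟨c1, c2⟩ := tr_par H h
  have o := ok_pl H
  suffices k : M.al e ∧ M.Rg (cor M c) (cor M e) ∧ cor M c % 4 = cor M e % 4 from
    have s : M.Sad (cor M c) := ⟨_, _, rg_refl _ _, k.2.1, fun v => ne (cor_inj H v).symm,
      cor_alt H h, cor_alt H k.1, k.2.2⟩
    ⟨lt4 H (sad_al H s), s, cor_alt H h⟩
  split_ifs at u with v
  · have r := sc_rg H (by omega) ((po.vx o (by omega) (by rwa [Nat.mul_div_cancel_left _ two_pos])).1 u)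
    rw [show 2 * (2 * c) = 4 * c by omega, show 2 * (2 * e) = 4 * e by omega] at r
    have ae : M.al e := by
      simpa only [Nat.mul_div_cancel_left _ four_pos, h, iff_true] using rg_al H r
    have e1 := (tr_par H ae).1.1 (p.trans v)
    rw [cor, cor, if_pos (c1.1 v), if_pos e1]
    refine ⟨ae, rg_trans (rg_trans ?_ r) ?_, by have := c1.1 v; unfold PL.r3; omega⟩
    · simpa only [nr_psi H] using rg_nr M (PL.r3 (M.lk (4 * c)))
    · simpa only [nr_psi H] using rg_back H (PL.r3 (M.lk (4 * e)))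
  · have r := sc_rg H (by omega) ((po.fa o (by omega)
      (by rwa [show (2 * c + 1) / 2 = c by omega])).1 u)
    rw [show 2 * (2 * c + 1) + 1 = 4 * c + 3 by omega,
      show 2 * (2 * e + 1) + 1 = 4 * e + 3 by omega] at r
    have ae : M.al e := by
      have := rg_al H r
      rw [show (4 * e + 3) / 4 = e by omega, show (4 * c + 3) / 4 = c by omega] at this
      exact this.2 h
    rw [cor, cor, if_neg (mt c1.2 v), if_neg fun k => v (p.symm.trans ((tr_par H ae).1.2 k))]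
    exact ⟨ae, r, by omega⟩

theorem stopS (po : PoK) (pl : PlS) : StopS := by
  rintro n c q γ s t j A θ r H ⟨⟨M, ls, rfl, I⟩, ok, -, gn0, -⟩ jq hA z
  obtain ⟨s0, a0⟩ := his_eq (c := c) (q := q) (γ := γ) (i := 2 * j) (H := H)
    (by rw [stg0]; exact I)
  rw [← lvl_eq jq, PhiG, I.geo.mp_eq I.ok, muB_eq I.ok] at z
  have mu : M.mu ≤ θ := by
    by_contra v
    rw [if_neg v] at z
    have : 0 < A * (M.mu + 1) := Nat.mul_pos hA M.mu.succ_pos
    omega
  have p := (pl _ _ s t ok).2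
  rw [s0, a0] at p
  have k : cnt M.n (fun x => (his M.n c q γ H).Co (2 * j) x ∧ sad M.n (tr M.lk) M.al x) ≤ 4 * M.mu :=
    (cnt_mono fun _ _ u => ⟨a0 ▸ u.1.1, u.2⟩).trans (cnt_sad po I.ok)
  change ((cnt (2 * M.n) _ : ℕ) : ℤ) ≤ 2 * (cnt M.n fun x => _ ∧ sad M.n _ _ x : ℕ) + gn M.n _ _ + 2 at p
  omega

end Pool.Agent.MP_1a6d78_lc.GX
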