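import Pool.Agent.MP_1a6d78_lc.GX.Defs

/-! PROJECT GX: cuts and smoothings in another frame. -/

namespace Pool.Agent.MP_1a6d78_lc.GX

open Classical ED PR PG GN

namespace TwH

variable {M N : Cm} {g : ℕ}

theorem cv_map {lk lk' pr pr' e : ℕ → ℕ} {P P' S : ℕ → Prop} (hl : ∀ x, e (lk' x) = lk (e x))
    (hd : ∀ x, e x / 4 = x / 4)
    (hS : ∀ x, S x → S (pr' (lk' x)) ∧ (P' (lk' x / 4) ↔ P (lk' x / 4)) ∧
      e (pr' (lk' x)) = pr (e (lk' x))) {x r : ℕ} (h : PL.Cv lk' pr' P' x r) (hx : S x) :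
    PL.Cv lk pr P (e x) (e r) := by
  induction h with
  | @stop x k =>
    rw [hl]
    exact .stop (by rw [← hl, hd]; exact (hS x hx).2.1.1 k)
  | @go x r k _ ih =>
    obtain ⟨k1, k2, k3⟩ := hS x hx
    refine .go (by rw [← hl, hd]; exact fun u => k (k2.2 u)) ?_
    rw [← hl, ← k3]
    exact ih k1

theorem tp4 (g a : ℕ) {q : ℕ} (h : q < 4) : tp g (4 * a + q) = 4 * a + fp g q := by
  unfold tp fp
  split_ifs <;> omega

theorem sm4 (k a : ℕ) {q : ℕ} (h : q < 4) : PL.sm k (4 * a + q) = 4 * a + PL.sm k q := by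
  unfold PL.sm r4 PL.r3
  split_ifs <;> omega

theorem pr4 (a : ℕ) {q : ℕ} (h : q < 4) : Cm.pr0 (4 * a + q) = 4 * a + Cm.pr0 q := by
  unfold Cm.pr0
  split_ifs <;> omega

theorem fin8 : ∀ g < 8, ∀ q < 4, Cm.pr0 q < 4 ∧ fp g (Cm.pr0 q) = PL.sm (fs g 0) (fp g q) ∧
    (q = 1 ∨ q = 3 → fp g q = (fp g 0 + 1) % 4 ∨ fp g q = (fp g 0 + 3) % 4) := by
  decide

theorem cv {p r : ℕ} {P : ℕ → Prop} (h : g < 8) (k : PL.Cv (M.tw g).lk Cm.pr0 P p r) :
    PL.Cv M.lk (PL.sm (fs g 0)) P (tp g p) (tp g r) :=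
  cv_map (S := fun _ => True) (Ct.tw_lk h) (Ct.tp_div g) (fun x _ => ⟨trivial, Iff.rfl, by
    generalize (M.tw g).lk x = y
    have l : y % 4 < 4 := by omega
    obtain ⟨k1, k2, -⟩ := fin8 g h _ l
    rw [← Nat.div_add_mod y 4, pr4 _ l, tp4 g _ k1, tp4 g _ l, sm4 _ _ (Ct.fp_lt _ _), k2]⟩) k trivial

theorem cut {R : ℕ → Prop} {en : ℕ → ℕ} (H : M.Ok) (h : g < 8)
    (C : PL.IsCut M.n (M.tw g).lk N.lk 0 R en) :
    PL.IsCut M.n M.lk (N.tw (gi g)).lk (fp g 0) R fun y => fp g (en y) := by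
  have iv : Iv (4 * M.n) (M.tw g).lk := (Ct.ok_pl (sTw M H g h).ok).iv
  have e4 : ∀ a, R a → en a < 4 := fun a u => (C.en4 u).1
  have bk : ∀ x, (N.tw (gi g)).lk (tp g x) = tp g (N.lk x) := fun x => by
    show tp (gi (gi g)) (N.lk (tp (gi g) (tp g x))) = _
    rw [Ct.gi_gi h, (Ct.tp_tp h x).1]
  have tr : ∀ a b, R b → (M.tw g).lk (4 * a + 0) = 4 * b + en b →
      M.lk (4 * a + fp g 0) = 4 * b + fp g (en b) := fun a b u k => by
    rw [← tp4 g a (by omega), ← Ct.tw_lk h, k, tp4 g b (e4 b u)]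
  have inj : ∀ a b, R a → R b → (en b = en a ↔ fp g (en b) = fp g (en a)) := fun a b u v => by
    have := e4 a u
    have := e4 b v
    rw [Ct.fp_inj h]
    omega
  refine ⟨⟨Ct.fp_lt _ _, fun a u => ?_, fun b u => ?_⟩, fun a u => ?_, fun a u => ?_,
    fun p hp k => ?_⟩
  · obtain ⟨k1, b, k2, k3⟩ := C.nx a u
    exact ⟨k1, b, k2, tr a b k2 k3⟩
  · obtain ⟨k1, a, k2, k3⟩ := C.pv b u
    exact ⟨(fin8 g h _ (e4 b u)).2.2 k1, a, k2, tr a b u k3⟩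
  · rw [← tp4 g a (by omega), bk]
    refine cv_map (S := fun x => ∃ a, R a ∧ x = 4 * a + 0) (Ct.tw_lk h) (Ct.tp_div g) ?_ (C.on a u)
      ⟨a, u, rfl⟩
    rintro _ ⟨c, v, rfl⟩
    obtain ⟨-, b, k2, k3⟩ := C.nx c v
    have := e4 b k2
    rw [k3, Ct.tp_div, show (4 * b + en b) / 4 = b by omega]
    exact ⟨⟨b, k2, rfl⟩, inj a b u k2, tp4 g b (by omega)⟩
  · rw [← tp4 g a (e4 a u), bk]
    refine cv_map (S := fun x => ∃ a, R a ∧ x = 4 * a + en a) (Ct.tw_lk h) (Ct.tp_div g) ?_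
      (C.bk a u) ⟨a, u, rfl⟩
    rintro _ ⟨c, v, rfl⟩
    obtain ⟨b, k2, k3⟩ := C.pv' iv v
    rw [k3, Ct.tp_div, show (4 * b + 0) / 4 = b by omega]
    exact ⟨⟨b, k2, rfl⟩, inj a b u k2, tp4 g b (e4 b k2)⟩
  · have e := (Ct.tp_tp h p).2
    have d := Ct.tp_div (gi g) p
    generalize tp (gi g) p = x at e d
    subst e
    rw [Ct.tp_div, Ct.tp_mod] at k
    rw [Ct.tp_div] at d
    have := Ct.tp_div g x
    rw [bk, C.off x (by omega) fun u => k ⟨u.1, u.2.imp (fun v => (Ct.fp_inj h).2 v)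
      fun v => (Ct.fp_inj h).2 (by omega)⟩, Ct.tw_lk h]

theorem gc (A : PoK) (B : PoR) : S_GCut := by
  intro M M' t v H H' ht hv S
  have h : t < 8 := by omega
  have T := sTw M H t h
  have W := sWalk M H
  have e0 : fp t 0 = t := by unfold fp; split_ifs; omega
  have C := (sTwC M M' _ H H' (FCutEx.rs_one W ht hv) S t h).2
  have e : (fun s y => s < 4 ∧ M.One t v (fp t s) y) = (M.tw t).Zr fun u => u = v := by
    funext s y
    have e1 : s < 4 ∧ fp t s = t ↔ s = 0 := by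
      unfold fp
      split_ifs
      omega
    have e2 := FCutEx.co_iff W (y := y) hv.1
    apply propext
    constructor
    · rintro ⟨a, b, c⟩
      have := e2.2 c
      refine ⟨e1.1 ⟨a, b⟩, ?_, v, rfl, ?_⟩
      · rw [T.per, e0]; exact this.1
      · rw [T.co, e0]; exact this.2
    · rintro ⟨a, c, u, rfl, d⟩
      rw [T.per, e0] at c
      rw [T.co, e0] at d
      exact ⟨(e1.2 a).1, (e1.2 a).2, e2.1 ⟨c, d⟩⟩
  rw [e] at C
  have D := cut H h (Ct.cutm_cut T.ok ((FCutEx.cut_iff (sWalk _ T.ok) _ _).2 C))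
  rw [Ct.tw_tw h] at D
  have o := Ct.ok_pl H
  unfold Cm.gx
  rw [S.n, A.med o, A.med (D.ok o)]
  exact (B.cut o H.lt D).gn

end TwH

theorem twH (A : PoK) (B : PoR) : TwG := ⟨TwH.cut, fun _ => TwH.cv, TwH.gc A B⟩

end Pool.Agent.MP_1a6d78_lc.GX
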