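import Pool.Agent.MP_1a6d78_lc.GN.All
import Pool.Agent.MP_1a6d78_lc.GX.All
import Pool.Agent.MP_1a6d78_lc.GX.Start
import Pool.Agent.MP_1a6d78_lc.GX.Stop
import Pool.Agent.MP_1a6d78_lc.GX.BrH
import Pool.Agent.MP_1a6d78_lc.GX.TwH

/-! PROJECT GX: all rows together. -/

namespace Pool.Agent.MP_1a6d78_lc.GX

open GN

theorem close : GM.MainS :=
  have tw := twH poK poAll
  GM.mainS cnAll (core (startS gnA poK cnAll) (stepS opAll (brH poK poAll hiAll tw) hiAll coAll)
    (potS poK hiAll tw.gc) (stopS poK plAll) (GM.topS mainAll plAll))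

end Pool.Agent.MP_1a6d78_lc.GX
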