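import Pool.Agent.MP_1a6d78_lc.PG.LStep
import Pool.Agent.MP_1a6d78_lc.GM.Top
import Pool.Agent.MP_1a6d78_lc.GM.Fin

/-! PROJECT GX: the rounds with blocked poles, the history of a run.  Statements of the rows. -/

namespace Pool.Agent.MP_1a6d78_lc.GX

open Classical ED PR SC GL PG GN GM

noncomputable section

/-- The kill round without the poles of the table. -/
def killG (n c q k : ℕ) (P : Pr) (j g w : ℕ) (T : List ℕ) : Rn :=
  { killR n n c q P j g w with h := fun x => (killR n n c q P j g w).sel x ∧ ¬∃ e < k, gt T e = x }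

/-- One level; the frame is noted in `rs`. -/
def stepG (n c q k : ℕ) (P : Pr) (j w : ℕ) (T : List ℕ) : Pr :=
  { (if w % 9 = 8 then P.garb n (colq q (4 * (4 * c)) (w / 9))
    else (killG n c q k P j (w % 9) (w / 9) T).kill.tw n (gi (w % 9))) with rs := w % 9 }

/-- The potential. -/
def PhiG (A θ n q : ℕ) (P : Pr) : ℕ :=
  if muB n (P.mp n).lk ≤ θ then 0 else A * (muB n (P.mp n).lk + 1) + P.ld.N (16 * n) q

/-- The level `i` of the history. -/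
def lvl (q : ℕ) (H : Orc) (i : ℕ) : Pr := ofO q (lev H (min i q))

/-- The map after the cut. -/
def mid (n c q : ℕ) (P : Pr) (j g : ℕ) : Pr :=
  if g = 8 then P else (cutR n n c q P j g).cut.tw n (gi g)

/-- The cells that the cut contracts. -/
def cT (n c q : ℕ) (P : Pr) (j g y : ℕ) : Prop :=
  g ≠ 8 ∧ (cutR n n c q P j g).cis (if fs g 0 % 2 = 1 then 0 else 3) y

def stg (n c q : ℕ) (H : Orc) (i : ℕ) : Pr :=
  if i % 2 = 0 then lvl q H (i / 2)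
  else mid n c q (lvl q H (i / 2)) (i / 2) (lvl q H (i / 2 + 1)).rs

/-- The history of the rounds: `2 j` is the cut and `2 j + 1` the kill of the level `j`. -/
def his (n c q γ : ℕ) (H : Orc) : Hs where
  n := n
  σ i := tr ((stg n c q H i).mp n).lk
  A i := (stg n c q H i).al
  T i y := if i % 2 = 0 then cT n c q (lvl q H (i / 2)) (i / 2) (lvl q H (i / 2 + 1)).rs y
    else fs (lvl q H (i / 2 + 1)).rs 0 % 2 = 1 ∧ (lvl q H (i / 2)).al y ∧
      ¬(lvl q H (i / 2 + 1)).al y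
  C := cn (2 * n) γ

/-- The core one round later, the new map is `σ`, `A`. -/
def co1 (Z : Hs) (i : ℕ) (σ : ℕ → ℕ) (A : ℕ → Prop) (y : ℕ) : Prop :=
  Z.Co i y ∧ A y ∧ ps (2 * Z.n) σ (ed A) (Z.C σ (ed A) (2 * y))

def y1 (Z : Hs) (i : ℕ) (T : ℕ → Prop) (y : ℕ) : Prop := Z.Y i y ∨ (Z.Co i y ∧ T y)

def yp (Z : Hs) (S P : ℕ → Prop) (b x : ℕ) : Prop :=
  ∃ y < Z.n, P y ∧ Z.C (Z.σ 0) (ed S) (2 * y + b) x

/-- `Hs.Free` with given sets. -/
def fr1 (Z : Hs) (Co Y G P : ℕ → Prop) (b z : ℕ) : Prop :=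
  ¬yp Z (fun y => G y ∧ (¬Co y ∨ Y y)) P b z ∧ ∀ y < Z.n, Co y → ¬Y y →
    yp Z (fun y => G y ∧ (¬Co y ∨ Y y)) P b (2 * y + (1 - b)) → P y

/-- The cells that die with the pole `x`. -/
def dd (K : Rn) (x y : ℕ) : Prop := K.obj 0 y = x ∧ K.P.al y ∧ ¬K.al' y

/-- The poles that must not be killed in the frame `g` with the hash `w`. -/
def blk (c q s t : ℕ) (Z : Hs) (P : Pr) (j g w x : ℕ) : Prop :=
  (killR Z.n Z.n c q P j g w).sel x ∧
    co1 Z (2 * j) (tr ((mid Z.n c q P j g).mp Z.n).lk) (mid Z.n c q P j g).al x ∧ fs g 0 % 2 = 0 ∧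
    ¬fr1 Z (co1 Z (2 * j) (tr ((mid Z.n c q P j g).mp Z.n).lk) (mid Z.n c q P j g).al)
      (y1 Z (2 * j) (cT Z.n c q P j g)) (Z.G (2 * j)) (dd (killR Z.n Z.n c q P j g w) x)
      (fs g 0 / 2) (if fs g 0 / 2 = 1 then t else s)

/-- The table. -/
def tbG (n c q γ k s t : ℕ) (H : Orc) (j w : ℕ) : List ℕ :=
  tab k fun e => sel n (blk c q s t (his n c q γ H) (lvl q H j) j (w % 9) (w / 9)) e

/-- The invariant of a run; `r` is the answer. -/
def Good (n c q γ s t : ℕ) (r : Prop) (j : ℕ) (H : Orc) : Prop :=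
  (∃ M ls, M.n = n ∧ Inv M (lvl q H j) (2 * j) ls) ∧ (his n c q γ H).Ok (2 * j) ∧
    (his n c q γ H).Fre (2 * j) s t ∧ gn n ((his n c q γ H).σ 0) ((his n c q γ H).A 0) ≤ 2 * γ ∧
    (Rc n ((his n c q γ H).σ 0) ((his n c q γ H).A 0) s t ↔ r)

/-- The map of the input. -/
def m0 (M : Mp) : Cm :=
  ⟨2 * M.n, fun p => if p < 4 * (2 * M.n) ∧
    PL.lam (2 * M.n) (PL.gad M.ρ M.β M.dir) p < 4 * (2 * M.n) then
      PL.lam (2 * M.n) (PL.gad M.ρ M.β M.dir) p else p⟩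

/-! ### The semantic rows -/

/-- START -/
def StartS : Prop := ∀ (M : Mp) (c q γ A θ : ℕ) (o : Orc), Pm M.n M.ρ → Iv M.n M.β → M.s < M.n →
  gen M.n M.ρ M.β ≤ 2 * γ → 16 * (2 * M.n) * 2 < q → 8 ≤ q → ofO q o = (base0 (m0 M)).clip q →
    Good (2 * M.n) c q γ (4 * M.s) (4 * M.t) (PL.Wk M.n M.ρ M.β M.dir M.s M.t) 0 (his0 o) ∧
      PhiG A θ (2 * M.n) q (ofO q o) ≤ A * (2 * M.n + 1) + 16 * (2 * M.n)

/-- STEP -/
def StepS : Prop := ∀ (n c q γ k s t β j w : ℕ) (r : Prop) (H o : Orc), Good n c q γ s t r j H →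
  16 * n * (2 * j + 4) < q → 8 ≤ q → j < q → q ≤ β → 0 < c → 4 * γ + 1 ≤ k →
    ofO q o = (stepG n c q k (ofO q (lev H j)) j w (clip k β (tbG n c q γ k s t H j w))).clip q →
      Good n c q γ s t r (j + 1) (ext j H o)

/-- POT: for any tables. -/
def PotS : Prop := ∀ (n c q γ k s t j A K θ : ℕ) (r : Prop) (H : Orc) (T : ℕ → List ℕ),
  Good n c q γ s t r j H → 16 * n * (2 * j + 4) < q → 8 ≤ q → j < q → 4160 ≤ c →
    106496 * c + 2 ≤ A → (A + 32) * (1664 * c) ≤ K → 4 * γ + 1 ≤ k → 1664 * c * k ≤ θ →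
      ∃ w < 9 * (4 * (4 * c) * (2 * q + 3) ^ 2),
        PhiG A θ n q ((stepG n c q k (ofO q (lev H j)) j w (T w)).clip q) * K ≤
          PhiG A θ n q (ofO q (lev H j)) * (K - 1)

/-- STOP -/
def StopS : Prop := ∀ (n c q γ s t j A θ : ℕ) (r : Prop) (H : Orc), Good n c q γ s t r j H →
  j < q → 0 < A → PhiG A θ n q (ofO q (lev H j)) = 0 →
    cnt (2 * n) ((his n c q γ H).It (2 * j) s t) ≤ 16 * θ + 2 * γ + 2

/-! ### Frames -/

structure TwG : Prop where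
  cut : ∀ {M N : Cm} {g : ℕ} {R : ℕ → Prop} {en : ℕ → ℕ}, M.Ok → g < 8 →
    PL.IsCut M.n (M.tw g).lk N.lk 0 R en →
      PL.IsCut M.n M.lk (N.tw (gi g)).lk (fp g 0) R fun y => fp g (en y)
  cv : ∀ {M : Cm} {g p r : ℕ} {P : ℕ → Prop}, M.Ok → g < 8 → PL.Cv (M.tw g).lk Cm.pr0 P p r →
    PL.Cv M.lk (PL.sm (fs g 0)) P (tp g p) (tp g r)
  gc : S_GCut

end

end Pool.Agent.MP_1a6d78_lc.GX
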