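import Pool.Agent.MP_1a6d78_lc.GX.Step

/-! PROJECT GX: some round lowers the potential. -/

namespace Pool.Agent.MP_1a6d78_lc.GX

open Classical ED PR SC GL PG GN GM PG.Ct

noncomputable section

variable {M : Cm} {P : Pr} {j q : ℕ} {l : ℕ → List ℕ}

theorem phi_eq (A θ : ℕ) (I : Inv M P j l) (hq : 16 * M.n * (j + 2) < q) :
    PhiG A θ M.n q P = if M.mu ≤ θ then 0 else A * (M.mu + 1) + P.tot M.n l := by
  rw [PhiG, I.geo.mp_eq I.ok, muB_eq I.ok, I.li.N hq]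
  rfl

theorem phi_clip (A θ r : ℕ) (I : Inv M P j l) (hq : 16 * M.n * (j + 2) < q) (h7 : 7 ≤ q) :
    PhiG A θ M.n q ((wr P r).clip q) = if M.mu ≤ θ then 0 else A * (M.mu + 1) + P.tot M.n l := by
  obtain ⟨J, e⟩ := clipS M _ _ l q (wr_inv I r) hq h7
  rw [phi_eq A θ J hq, e]
  rfl

theorem ite_le {a : ℕ} {p : Prop} [Decidable p] : (if p then 0 else a) ≤ a := by
  split_ifs <;> omega

theorem arP {u y T s s' c k γ : ℕ} (hc : 4160 ≤ c) (h1 : u ≤ 12 * y + 2 * γ) (h2 : T < 32 * (u + 1))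
    (h3 : c * y ≤ 4 * T + 32 * u + 32 * c ^ 2 * s') (h4 : s' ≤ s + k) (hk : 4 * γ + 1 ≤ k)
    (h5 : 1664 * c * k ≤ u) : u + 1 ≤ 1664 * c * s := by
  have a0 : 1664 * 4160 * k ≤ 1664 * c * k := Nat.mul_le_mul_right k (by omega)
  have a1 := Nat.mul_le_mul_left c (show u + 1 ≤ 13 * y by omega)
  have a2 := Nat.mul_le_mul_right (u + 1) hc
  have a3 : u + 1 ≤ 832 * c * s' := le_of_mul_le_mul_left (a := c) (by nlinarith) (by omega)
  have a4 := Nat.mul_le_mul_left (832 * c) h4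
  nlinarith

theorem arG {A c u T d K : ℕ} (h1 : 32 * (u + 1) ≤ T) (h2 : T ≤ 16 * (4 * c) * d)
    (hK : (A + 32) * (1664 * c) ≤ K) : A * (u + 1) + T ≤ K * d := by
  have a1 := Nat.mul_le_mul_left A (show u + 1 ≤ T by omega)
  have a2 := Nat.mul_le_mul_left (A + 1) h2
  have a3 := Nat.mul_le_mul_right d hK
  nlinarith [Nat.zero_le (A * c * d), Nat.zero_le (c * d)]

theorem arD {A c u v T T' s : ℕ} (d : 2 * v + s ≤ 2 * u) (hA : 106496 * c + 2 ≤ A)
    (h : u + 1 ≤ 1664 * c * s) (t : T' ≤ T + 16 * u + 16 * v) :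
    A * (v + 1) + T' + s ≤ A * (u + 1) + T := by
  have a1 := Nat.mul_le_mul_left A d
  have a2 := Nat.mul_le_mul_right s hA
  nlinarith

theorem arK {A c u T s K : ℕ} (h : u + 1 ≤ 1664 * c * s) (t : T < 32 * (u + 1))
    (hK : (A + 32) * (1664 * c) ≤ K) : A * (u + 1) + T ≤ K * s := by
  have a1 := Nat.mul_le_mul_left (A + 32) h
  have a2 := Nat.mul_le_mul_right s hK
  nlinarith

theorem arQ {n j q : ℕ} (h : 16 * n * (2 * j + 4) < q) : 2 * n + 3 ≤ 2 * q + 3 := by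
  have := Nat.mul_le_mul_left (16 * n) (show 1 ≤ 2 * j + 4 by omega)
  omega

theorem cnt_tab (n k : ℕ) (T : List ℕ) : cnt n (fun x => ∃ e < k, gt T e = x) ≤ k :=
  (cnt_inj (Q := fun _ => True) (fun x => lst k fun e => gt T e = x)
    (fun _ _ u => ⟨(lst_spec u).1, trivial⟩) fun _ _ _ _ u v e =>
      (lst_spec u).2.symm.trans (e ▸ (lst_spec v).2)).trans (cnt_le k _)

theorem potS (po : PoK) (hi : HiS) (gc : S_GCut) : PotS := by
  rintro n c q γ k s t j A K θ r H T ⟨⟨M, ls, rfl, I⟩, ok, -, gn0, -⟩ hq q8 jq hc hA hK hk hθ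
  have h7 : 7 ≤ q := by omega
  obtain ⟨s0, a0⟩ := his_eq (c := c) (q := q) (γ := γ) (i := 2 * j) (H := H)
    (by rw [stg0]; exact I)
  have gx : M.gx ≤ (2 * γ : ℕ) := by
    have := (hi _ _ ok).gle _ le_rfl
    rw [s0, a0] at this
    rw [Cm.gx, po.med (ok_pl I.ok)]
    push_cast
    exact this.trans gn0
  rw [← lvl_eq jq]
  generalize lvl q H j = P at I
  have q0 : 16 * M.n * (2 * j + 2) < q := big (k := 0) hq (by omega)
  have q2 : 16 * M.n * (2 * (j + 1) + 2) < q := big (k := 2) hq le_rfl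
  rw [phi_eq A θ I q0]
  by_cases z : M.mu ≤ θ
  · obtain ⟨ls', J, -⟩ := I.li.garb (colq q (4 * (4 * c)) (8 / 9)) q
    refine ⟨8, by
      have : 0 < 4 * (4 * c) * (2 * q + 3) ^ 2 := by have : 0 < c := by omega
                                                     positivity
      omega, ?_⟩
    rw [step_eq, if_pos rfl, phi_clip A θ _ (garb_inv I J) q2 h7, if_pos z, zero_mul]
    exact Nat.zero_le _
  rw [if_neg z]
  by_cases k0 : 32 * (M.mu + 1) ≤ P.tot M.n ls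
  · have v := vcntS M P I.ok I.geo
    obtain ⟨w, w1, ls', d, J, w2, w3⟩ := I.li.garb_gain q0 (c := 4 * c) (by omega)
      (show 2 * cnt (16 * M.n) P.val ≤ P.tot M.n ls by omega)
    refine ⟨9 * w + 8, by omega, ?_⟩
    rw [step_eq, if_pos (by omega), show (9 * w + 8) / 9 = w by omega,
      phi_clip A θ _ (garb_inv I J) q2 h7, if_neg z]
    have w2' : (P.garb M.n (colq q (4 * (4 * c)) w)).tot M.n ls' + d ≤ P.tot M.n ls := w2
    have w3' : P.tot M.n ls ≤ 16 * (4 * c) * d := w3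
    exact ar0 (d := d) (by omega) (arG k0 w3' hK)
  obtain ⟨g, hg, Y, y1, y2⟩ := sProg gc M I.ok M.n (2 * γ) gx
  obtain ⟨N, l0, l1, C⟩ := c1_ex (c := c) I hg hq
  have n1 : N.n = M.n := C.cut.n
  obtain ⟨Y', y3, y4⟩ := cpayS longS (cutR M.n M.n c q P j g) (M.tw g) N _ l0 rfl C.i0
    (big (k := 0) hq (by omega)) C.i1.ok C.cut C.iff Y y2
  obtain ⟨w, w1, w2⟩ := kpayS _ N M.n c q _ (2 * j + 1) l1 C.i1
    (by rw [n1]; exact big (k := 1) hq (by omega)) (by omega) Y' y3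
  rw [n1] at w1 w2
  have y5 : c * cnt M.n Y ≤ c * cnt M.n Y' + 2 * (P.tw M.n g).tot M.n l0 := y4
  have w3 : c * cnt M.n Y' ≤ 2 * (cutR M.n M.n c q P j g).cut.tot M.n l1 + 32 * c ^ 2 *
    cnt M.n fun x => (killR M.n M.n c q P j g w).sel x ∧ N.NT M.n x := w2
  obtain ⟨L, l3, k1, k2, okL, I3, t3⟩ := k1_ex C hg hq k w (T (9 * w + g))
  have n2 : (L.tw (gi g)).n = M.n := k1.n.trans n1
  have d := sDrop N L _ M.n C.i1.ok k2 k1 fun ⟨x, hx, d⟩ =>
    absurd (C.i1.ok.lt _ ((sDead N C.i1.ok x (k2.top x hx)).al _ d)) (by omega)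
  rw [n1, C.mu] at d
  have w4 : cnt M.n (fun x => (killR M.n M.n c q P j g w).sel x ∧ N.NT M.n x) ≤
      cnt M.n (fun x => (killG M.n c q k P j g w (T (9 * w + g))).sel x ∧ N.NT M.n x) + k :=
    le_trans (cnt_mono fun x _ u => or_iff_not_imp_right.2 fun v => ⟨selG.2 ⟨u.1, v⟩, u.2⟩)
      ((cnt_or _ _ _).trans (Nat.add_le_add_left (cnt_tab _ _ (T (9 * w + g))) _))
  have t0 := C.t0
  have t1 := C.t1
  have u := arP hc y1 (not_le.1 k0) (by omega) w4 hk (by omega)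
  have w5 := w1.trans_le (Nat.mul_le_mul_left _ (Nat.pow_le_pow_left (arQ hq) 2))
  refine ⟨9 * w + g, by omega, ?_⟩
  have p := phi_clip A θ g I3 (by rw [n2]; exact q2) h7
  rw [n2, tw_mu okL (gi_lt hg)] at p
  rw [step_eq, if_neg (by omega), show (9 * w + g) / 9 = w by omega,
    show (9 * w + g) % 9 = g by omega, p]
  exact (Nat.mul_le_mul_right K ite_le).trans (ar0 (arD d hA u t3) (arK u (not_le.1 k0) hK))

end

end Pool.Agent.MP_1a6d78_lc.GX
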