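import Pool.Agent.MP_1a6d78_lc.GX.Defs

/-! PROJECT GX: the programs. -/

namespace Pool.Agent.MP_1a6d78_lc.GX

open Classical ED PR SC GL PG GN GM

variable {κ m β q n k γ : List Bool → ℕ} {P : List Bool → Orc → Env → Pr} {j f w a b : EN} {c : ℕ}

theorem cutK (H : PC κ m β P) (hn : Nq κ m β fun x _ _ => n x) (hq : Nq κ m β fun x _ _ => q x)
    (hj : Nq κ m β j) (hf : Nq κ m β f) : KC κ m β c fun x g ρ =>
      (cutR (n x) (n x) c (q x) (P x g ρ) (j x g ρ) (f x g ρ)).wc c :=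
  ⟨H.tw hn hf, hn, hn, fun _ _ _ => rfl, hq, Q.mul (Q.c 2) hj, fun _ => U.tt⟩

theorem killK (H : PC κ m β P) (hn : Nq κ m β fun x _ _ => n x) (hq : Nq κ m β fun x _ _ => q x)
    (hj : Nq κ m β j) (hf : Nq κ m β f) (hw : Nq κ m β w) : KC κ m β c fun x g ρ =>
      (killR (n x) (n x) c (q x) (P x g ρ) (j x g ρ) (f x g ρ) (w x g ρ)).wc c :=
  ⟨KL.cut (cutK H hn hq hj hf), hn, hn, fun _ _ _ => rfl, hq, Q.add (Q.mul (Q.c 2) hj) (Q.c 1),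
    U.colq _ hn hw⟩

theorem listC (hk : Cn κ fun x _ => k x) {l : VL} (hl : Lq κ m β l) (ha : Nq κ m β a) :
    Pq κ m β fun x g ρ => ∃ e < k x, gt (l x g ρ) e = a x g ρ :=
  M.bind _ _ ha (M.bind _ _ (Q.wL hl) (M.lift _ (K.ex (P := fun _ ρ e => gt (ρ 0) e = hd (ρ 1)) hk
    (K.eq (K.gt (K.vL 1) (K.v 0)) (K.v 2)))))

theorem stepC {l : VL} (H : PC κ m β P) (hn : Nq κ m β fun x _ _ => n x)
    (hq : Nq κ m β fun x _ _ => q x) (hk : Cn κ fun x _ => k x) (hj : Nq κ m β j) (hw : Nq κ m β w)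
    (hl : Lq κ m β l) :
    PC κ m β fun x g ρ => stepG (n x) c (q x) (k x) (P x g ρ) (j x g ρ) (w x g ρ) (l x g ρ) := by
  have g9 := Q.mod hw (Q.c 9)
  have w9 := Q.div hw (Q.c 9)
  have k1 := killK (c := c) H hn hq hj g9 w9
  have k2 : KC κ m β c fun x g ρ => (killG (n x) c (q x) (k x) (P x g ρ) (j x g ρ) (w x g ρ % 9)
      (w x g ρ / 9) (l x g ρ)).wc c :=
    ⟨k1.P, hn, hn, fun _ _ _ => rfl, hq, k1.j, fun h => Q.and (KL.sel k1 h) (Q.not (listC hk hl h))⟩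
  have k3 : PC κ m β fun x g ρ => (P x g ρ).garb (n x) (colq (q x) (4 * (4 * c)) (w x g ρ / 9)) :=
    ⟨H.al, H.lam, H.En, H.FE, H.F, H.ld.gnext (Q.mul (Q.c 16) hn)
      (h := fun x g ρ => colq (q x) (4 * (4 * c)) (w x g ρ / 9)) (U.colq _ hq w9), H.cur, H.rs⟩
  have k4 := k3.ite (i := fun x g ρ => instDecidableEqNat (w x g ρ % 9) 8) (Q.eq g9 (Q.c 8))
    ((KL.kill k2).tw hn (giC g9))
  exact ⟨k4.al, k4.lam, k4.En, k4.FE, k4.F, k4.next, k4.cur, g9⟩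

theorem cStep (hk : ∀ x, 12 ≤ κ x) (hn : Cn κ fun x _ => n x) (hq : Cn κ fun x _ => q x)
    (hb : ∀ x, q x ≤ β x) (ck : Cn κ fun x _ => k x) : Nq κ m β fun x g ρ => toO (q x)
      (stepG (n x) c (q x) (k x) (ofO (q x) g) (hd (ρ 1)) (hd (ρ 0)) (ρ 2)) (ρ 3) :=
  toOC (q := q) (P := fun x g ρ => stepG (n x) c (q x) (k x) (ofO (q x) g) (hd (ρ 1)) (hd (ρ 0)) (ρ 2))
    (l := fun _ _ ρ => ρ 3) (stepC (P := fun x g _ => ofO (q x) g) (l := fun _ _ ρ => ρ 2)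
      (PG.ofOC hk (Q.lift hq) hb) (Q.lift hn) (Q.lift hq) ck (Q.v 1) (Q.v 0) (Q.vL 2))
    (Q.lift hq) (Q.vL 3)

theorem PhiC {P : List Bool → Orc → Pr} {C : List Bool → ℕ} (H : PC κ β β fun x g _ => P x g) (A : ℕ)
    (hC : Cn κ fun x _ => C x) (hn : Cn κ fun x _ => n x) (hq : Cn κ fun x _ => q x)
    (h1 : ∀ x, 16 * n x ≤ β x) (h2 : ∀ x, q x ≤ β x) :
    Nq κ β β fun x g _ => PhiG A (C x) (n x) (q x) (P x g) :=
  have u := muBC (lk := fun x g => ((P x g).mp (n x)).lk) hn (fun x => by have := h1 x; omega)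
    fun h => Q.ite (H.al (d4 h)) (H.lam h) h
  Q.ite (Q.le u (Q.lift hC)) (Q.c 0) (Q.add (Q.mul (Q.c A) (Q.add u (Q.c 1)))
    (NC (D := fun x g => (P x g).ld) H.ld (K.mul (K.c 16) hn) hq h1 h2))

theorem askL (hk : ∀ x, 13 ≤ κ x) (hq : Nq κ m β fun x _ _ => q x) (hb : ∀ x, q x ≤ β x)
    (hj : Nq κ m β j) (a : EN) (l : List EN) (hl : l.length < 12) (h : ∀ f ∈ a :: l, Nq κ m β f) :
    Nq κ m β fun x g ρ => ask (q x) (lev g (min (j x g ρ) (q x))) ((a :: l).map fun f => f x g ρ) :=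
  GM.askL hk hq hb (Q.min hj hq) (fun x _ _ => (min_le_right _ _).trans (hb x)) a l hl h

theorem midC (H : PC κ m β P) (hn : Nq κ m β fun x _ _ => n x) (hq : Nq κ m β fun x _ _ => q x)
    (hj : Nq κ m β j) (hf : Nq κ m β f) :
    PC κ m β fun x g ρ => mid (n x) c (q x) (P x g ρ) (j x g ρ) (f x g ρ) :=
  H.ite (Q.eq hf (Q.c 8)) ((KL.cut (cutK H hn hq hj hf)).tw hn (giC hf))

theorem cTC (H : PC κ m β P) (hn : Nq κ m β fun x _ _ => n x) (hq : Nq κ m β fun x _ _ => q x)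
    (hj : Nq κ m β j) (hf : Nq κ m β f) (ha : Nq κ m β a) :
    Pq κ m β fun x g ρ => cT (n x) c (q x) (P x g ρ) (j x g ρ) (f x g ρ) (a x g ρ) :=
  Q.and (Q.ne hf (Q.c 8)) (KL.cis (cutK H hn hq hj hf)
    (Q.ite (Q.eq (m2 (fsC hf (Q.c 0))) (Q.c 1)) (Q.c 0) (Q.c 3)) ha)

theorem lkC (H : PC κ m β P) (ha : Nq κ m β a) :
    Nq κ m β fun x g ρ => ((P x g ρ).mp (n x)).lk (a x g ρ) := Q.ite (H.al (d4 ha)) (H.lam ha) ha

namespace HC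

variable {Z : List Bool → Orc → Hs} (h : HC κ m β Z) {σ : VF} {A T S C Y G R : VP}
include h

theorem co1 (hj : RN κ m β j) (hσ : Fq κ m β σ) (hA : P1q κ m β A) :
    P1q κ m β fun x g ρ => co1 (Z x g) (j x g ρ) (σ x g ρ) (A x g ρ) :=
  Q.and (h.Co hj.w (Q.v 0)) (Q.and hA (psC (K := fun x g ρ => (Z x g).C (σ x g (tl ρ))
    (ed (A x g (tl ρ))) (2 * hd (ρ 0))) h.n (Q.wF hσ) (Q.wF (edC hA))
      (h.C (Q.wF (Q.wF hσ)) (Q.wF (Q.wF (edC hA))) (db (Q.v 1)) (Q.v 0))))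

theorem y1 (hj : RN κ m β j) (hT : P1q κ m β T) :
    P1q κ m β fun x g ρ => y1 (Z x g) (j x g ρ) (T x g ρ) :=
  Q.or (h.Y hj.w (Q.v 0)) (Q.and (h.Co hj.w (Q.v 0)) hT)

theorem yp (hS : P1q κ m β S) (hR : P1q κ m β R) (hb : Nq κ m β b) (ha : Nq κ m β a) :
    Pq κ m β fun x g ρ => yp (Z x g) (S x g ρ) (R x g ρ) (b x g ρ) (a x g ρ) :=
  h.n.half.ex (P := fun x g ρ y => R x g ρ y ∧ (Z x g).C ((Z x g).σ 0) (ed (S x g ρ))
      (2 * y + b x g ρ) (a x g ρ))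
    (Q.and hR (h.C (h.σF (Q.c 0)) (Q.wF (edC hS)) (Q.add (db (Q.v 0)) (Q.w hb)) (Q.w ha)))

theorem fr1 (hC : P1q κ m β C) (hY : P1q κ m β Y) (hG : P1q κ m β G) (hR : P1q κ m β R)
    (hb : Nq κ m β b) (ha : Nq κ m β a) : Pq κ m β fun x g ρ =>
      fr1 (Z x g) (C x g ρ) (Y x g ρ) (G x g ρ) (R x g ρ) (b x g ρ) (a x g ρ) :=
  have u : P1q κ m β fun x g ρ y => G x g ρ y ∧ (¬C x g ρ y ∨ Y x g ρ y) :=
    Q.and hG (Q.or (Q.not hC) hY)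
  Q.and (Q.not (yp h u hR hb ha)) (h.n.half.all (P := fun x g ρ y => C x g ρ y → ¬Y x g ρ y →
      GX.yp (Z x g) (fun y => G x g ρ y ∧ (¬C x g ρ y ∨ Y x g ρ y)) (R x g ρ) (b x g ρ)
        (2 * y + (1 - b x g ρ)) → R x g ρ y)
    (Q.imp hC (Q.imp (Q.not hY) (Q.imp (yp h (Q.wP1 u) (Q.wP1 hR) (Q.w hb)
      (Q.add (db (Q.v 0)) (Q.sub (Q.c 1) (Q.w hb)))) hR))))

end HC

/-- The bounds for the programs that read the history. -/
structure XC (κ β q n γ : List Bool → ℕ) : Prop where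
  h1 : ∀ x, 13 ≤ κ x
  cq : Nq κ β β fun x _ _ => q x
  h2 : ∀ x, 2 * q x + 1 ≤ β x
  cn : NB κ β β fun x _ => 2 * n x
  cg : TB κ β γ

namespace XC

variable (X : XC κ β q n γ)
include X

theorem qb (x : List Bool) : q x ≤ β x := by have := X.h2 x; omega

theorem nn : Nq κ β β fun x _ _ => n x := X.cn.half.c

theorem lvl (hj : Nq κ β β j) : PC κ β β fun x g ρ => lvl (q x) g (j x g ρ) where
  al {a} h := Q.ne (askL X.h1 X.cq X.qb hj _ [a] (by simp) (by simp [h, Q.c])) (Q.c 0)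
  lam {a} h := askL X.h1 X.cq X.qb hj _ [a] (by simp) (by simp [h, Q.c])
  En {i a} h h' := askL X.h1 X.cq X.qb hj _ [i, a] (by simp) (by simp [h, h', Q.c])
  FE {i a b} h h' h'' := askL X.h1 X.cq X.qb hj _ [i, a, b] (by simp) (by simp [h, h', h'', Q.c])
  F {fl a b A B} h1 h2 h3 h4 h5 := askL X.h1 X.cq X.qb hj (fun _ _ _ => 4)
    [fun x g ρ => if fl x g ρ = true then 1 else 0, a, b, fun x g ρ => (A x g ρ).i,
      fun x g ρ => (A x g ρ).p, fun x g ρ => (A x g ρ).s, fun x g ρ => (A x g ρ).q,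
      fun x g ρ => (B x g ρ).i, fun x g ρ => (B x g ρ).p, fun x g ρ => (B x g ρ).s,
      fun x g ρ => (B x g ρ).q] (by simp) (by
        simp only [List.forall_mem_cons]
        exact ⟨Q.c 4, Q.ite h1 (Q.c 1) (Q.c 0), h2, h3, h4.i, h4.p, h4.s, h4.q, h5.i, h5.p, h5.s,
          h5.q, by simp⟩)
  next {a} h := askL X.h1 X.cq X.qb hj _ [a] (by simp) (by simp [h, Q.c])
  cur {a} h := askL X.h1 X.cq X.qb hj _ [a] (by simp) (by simp [h, Q.c])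
  rs := askL X.h1 X.cq X.qb hj (fun _ _ _ => 7) [] (by simp) (by simp [Q.c])

theorem stg (hj : Nq κ β β j) : PC κ β β fun x g ρ => stg (n x) c (q x) g (j x g ρ) :=
  (X.lvl (hf2 hj)).ite (Q.eq (m2 hj) (Q.c 0)) (midC (X.lvl (hf2 hj)) X.nn X.cq (hf2 hj)
    (X.lvl (Q.add (hf2 hj) (Q.c 1))).rs)

theorem his : HC κ β β fun x g => his (n x) c (q x) (γ x) g where
  n := X.cn
  σ {i _} hi hd := Q.app (trC (f := fun x g ρ => ((GX.stg (n x) c (q x) g (i x g ρ)).mp (n x)).lk)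
    (lkC (X.stg (Q.w hi)) (Q.v 0))) hd
  A hi hc := (X.stg hi).al hc
  T hi hc :=
    have u := X.lvl (Q.add (hf2 hi) (Q.c 1))
    U.iteP (Q.eq (m2 hi) (Q.c 0)) (cTC (X.lvl (hf2 hi)) X.nn X.cq (hf2 hi) u.rs hc)
      (Q.and (Q.eq (m2 (fsC u.rs (Q.c 0))) (Q.c 1)) (Q.and ((X.lvl (hf2 hi)).al hc) (Q.not (u.al hc))))
  C hf hγ ha hb := cnC X.cn X.cg hf hγ ha hb

theorem co (hj : Nq κ β β j) (jb : ∀ x g ρ, j x g ρ ≤ q x) (hf : Nq κ β β f) :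
    P1q κ β β fun x g ρ => co1 (GX.his (n x) c (q x) (γ x) g) (2 * j x g ρ)
      (tr ((mid (n x) c (q x) (GX.lvl (q x) g (j x g ρ)) (j x g ρ) (f x g ρ)).mp (n x)).lk)
      (mid (n x) c (q x) (GX.lvl (q x) g (j x g ρ)) (j x g ρ) (f x g ρ)).al :=
  have u := midC (c := c) (X.lvl (Q.w hj)) X.nn X.cq (Q.w hj) (Q.w hf)
  HC.co1 X.his ⟨db hj, fun x g ρ => by have := X.h2 x; have := jb x g ρ; omega⟩
    (trC (f := fun x g ρ => ((mid (n x) c (q x) (GX.lvl (q x) g (j x g ρ)) (j x g ρ)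
      (f x g ρ)).mp (n x)).lk) (lkC u (Q.v 0))) (u.al (Q.v 0))

theorem blk {s t : List Bool → ℕ} (hs : Nq κ β β fun x _ _ => s x) (ht : Nq κ β β fun x _ _ => t x)
    (hj : Nq κ β β j) (jb : ∀ x g ρ, j x g ρ ≤ q x) (hf : Nq κ β β f) (hw : Nq κ β β w)
    (ha : Nq κ β β a) : Pq κ β β fun x g ρ => blk c (q x) (s x) (t x) (GX.his (n x) c (q x) (γ x) g)
      (GX.lvl (q x) g (j x g ρ)) (j x g ρ) (f x g ρ) (w x g ρ) (a x g ρ) :=
  have e := hf2 (fsC hf (Q.c 0))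
  have r : RN κ β β fun x g ρ => 2 * j x g ρ :=
    ⟨db hj, fun x g ρ => by have := X.h2 x; have := jb x g ρ; omega⟩
  have u := killK (c := c) (X.lvl (Q.w hj)) X.nn X.cq (Q.w hj) (Q.w hf) (Q.w hw)
  Q.and (KL.sel (killK (X.lvl hj) X.nn X.cq hj hf hw) ha) (Q.and (Q.appP (X.co hj jb hf) ha)
    (Q.and (Q.eq (m2 (fsC hf (Q.c 0))) (Q.c 0)) (Q.not (HC.fr1
      (G := fun x g ρ => (GX.his (n x) c (q x) (γ x) g).G (2 * j x g ρ))
      (R := fun x g ρ => dd (killR (n x) (n x) c (q x) (GX.lvl (q x) g (j x g ρ)) (j x g ρ)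
        (f x g ρ) (w x g ρ)) (a x g ρ)) X.his (X.co hj jb hf)
      (HC.y1 (T := fun x g ρ => cT (n x) c (q x) (GX.lvl (q x) g (j x g ρ)) (j x g ρ) (f x g ρ))
        X.his r (cTC (X.lvl (Q.w hj)) X.nn X.cq (Q.w hj) (Q.w hf) (Q.v 0)))
      (X.his.G r.w (Q.v 0)) (Q.and (Q.eq (KL.obj u (Q.c 0) (Q.v 0)) (Q.w ha))
        (Q.and (u.P.al (Q.v 0)) (Q.not (KL.al' u (Q.v 0))))) e (Q.ite (Q.eq e (Q.c 1)) ht hs)))))

theorem tb {s t : List Bool → ℕ} (hs : Nq κ β β fun x _ _ => s x) (ht : Nq κ β β fun x _ _ => t x)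
    (hk : TB κ β k) (hj : Nq κ β β j) (jb : ∀ x g ρ, j x g ρ ≤ q x) (hw : Nq κ β β w) :
    Lq κ β β fun x g ρ => tbG (n x) c (q x) (γ x) (k x) (s x) (t x) g (j x g ρ) (w x g ρ) :=
  hk.tab (Q.sel (P := fun x g ρ => GX.blk c (q x) (s x) (t x) (GX.his (n x) c (q x) (γ x) g)
      (GX.lvl (q x) g (j x g ρ)) (j x g ρ) (w x g ρ % 9) (w x g ρ / 9)) X.nn
    (fun x g _ => X.cn.half.b x g) (X.blk hs ht (Q.w hj) (fun _ _ _ => jb _ _ _)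
      (Q.mod (Q.w hw) (Q.c 9)) (Q.div (Q.w hw) (Q.c 9)) (Q.v 0)))

end XC

theorem m0C {M : List Bool → Mp} (h : Mp.C κ M) : BC κ fun x => m0 (M x) := by
  obtain ⟨hn, hρ, hβ, hu, -⟩ := h
  have n2 := K.mul (K.c 2) hn
  have fa : F1 κ fun x _ => PL.far (M x).dir :=
    K.ite hu (K.add (K.mul (K.c 4) (K.v 0)) (K.c 3)) (K.add (K.mul (K.c 4) (K.v 0)) (K.c 2))
  have mi : F1 κ fun x _ => PL.mid (M x).dir :=
    K.ite hu (K.add (K.mul (K.c 4) (K.v 0)) (K.c 2)) (K.add (K.mul (K.c 4) (K.v 0)) (K.c 3))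
  have d := K.div (K.v (κ := κ) 0) (K.c 4)
  have r := K.mod (K.v (κ := κ) 0) (K.c 4)
  have ga : F1 κ fun x _ => PL.gad (M x).ρ (M x).β (M x).dir :=
    K.ite (K.eq r (K.c 0)) (K.app fa (K.app hβ (K.app hρ d))) (K.ite (K.eq r (K.c 1)) (K.app mi d)
      (K.ite (K.eq (K.v 0) (K.app fa d)) (K.mul (K.c 4) (K.app hβ d))
        (K.add (K.mul (K.c 4) d) (K.c 1))))
  have la : F1 κ fun x _ => PL.lam (2 * (M x).n) (PL.gad (M x).ρ (M x).β (M x).dir) :=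
    K.ite (K.eq (K.mod (K.v 0) (K.c 2)) (K.c 0))
      (K.add (K.mul (K.c 2) (K.app ga (K.div (K.v 0) (K.c 2)))) (K.c 1))
      (K.mul (K.c 2) (K.lst (P := fun x ρ d => PL.gad (M x).ρ (M x).β (M x).dir d = hd (ρ 0) / 2)
        (K.mul (K.c 2) n2) (K.eq ga (K.div (K.v 1) (K.c 2)))))
  refine ⟨n2, fun h => K.ite (K.and (K.lt h (K.mul (K.c 4) n2)) (K.lt (K.app la h)
    (K.mul (K.c 4) n2))) (K.app la h) h, fun x p h => ?_,
    fun x p h => if_neg fun k => absurd k.1 (not_lt.2 h)⟩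
  show (if _ then _ else _) < _
  split_ifs with k
  exacts [k.2, h]

end Pool.Agent.MP_1a6d78_lc.GX
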