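import Pool.Agent.MP_1a6d78_lc.GX.Defs

/-! PROJECT GX: rounds of cell maps are rounds of dart maps. -/

namespace Pool.Agent.MP_1a6d78_lc.GX

open Classical ED PR SC GL PG GN GM

/-- BRIDGE -/
structure Br : Prop where
  cut : ∀ {M N : Cm} {g : ℕ} {R : ℕ → Prop}, M.Ok → g < 8 → (M.tw g).Cutm N R →
    Op M.n (tr M.lk) (tr (N.tw (gi g)).lk) M.al N.al
      fun y => (M.tw g).Rk R (if fs g 0 % 2 = 1 then 0 else 3) y
  kill : ∀ {N L : Cm} {g : ℕ} {X : ℕ → Prop}, N.Ok → g < 8 → (∀ x, X x → N.Top x) →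
    N.Smo L (N.Dead X) → Op N.n (tr (N.tw (gi g)).lk) (tr (L.tw (gi g)).lk) N.al L.al
      fun y => fs g 0 % 2 = 1 ∧ N.al y ∧ ¬L.al y
  bas : ∀ (Z : Hs) (L i : ℕ) {N : Cm} {g : ℕ} {X : ℕ → Prop}, Z.Ok L → i ≤ L → N.Ok → g < 8 →
    Z.n = N.n → Z.σ i = tr (N.tw (gi g)).lk → Z.A i = N.al → N.Fam X → fs g 0 % 2 = 0 →
      Z.Bas i (fun x => X x ∧ Z.Co i x) N.Dd (fs g 0 / 2) ∧
        ∀ x y, X x → N.Dd x y → Z.Co i y → Z.Co i x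

end Pool.Agent.MP_1a6d78_lc.GX
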