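import Pool.Agent.MP_1a6d78_lc.GX.Agree

/-! PROJECT GX: a level keeps the invariant. -/

namespace Pool.Agent.MP_1a6d78_lc.GX

open Classical ED PR SC GL PG GN GM PG.Ct

noncomputable section

variable {M N : Cm} {P : Pr} {n j q c g k w : ℕ} {ls T : List ℕ} {l : ℕ → List ℕ}

def wr (P : Pr) (r : ℕ) : Pr := { P with rs := r }

theorem step_eq : stepG n c q k P j w T =
    wr (if w % 9 = 8 then P.garb n (colq q (4 * (4 * c)) (w / 9))
      else (killG n c q k P j (w % 9) (w / 9) T).kill.tw n (gi (w % 9))) (w % 9) := rfl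

theorem wr_inv (I : Inv M P j l) (r : ℕ) : Inv M (wr P r) j l :=
  ⟨I.ok, ⟨I.geo.al, I.geo.lam, I.geo.nm, I.geo.FE, I.geo.F⟩, I.li⟩

theorem selG {x : ℕ} : (killG n c q k P j g w T).sel x ↔
    (killR n n c q P j g w).sel x ∧ ¬∃ e < k, gt T e = x := by
  refine ⟨fun u => u.2.2.2.1, fun u => ?_⟩
  obtain ⟨u1, u2, u3, u4, u5, u6, u7⟩ := id u.1
  exact ⟨u1, u2, u3, u, u5, u6, fun t ht v => (u7 t ht v).imp_right fun a b => a b.1.2.2.2.1⟩

/-- The cut of a level. -/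
structure C1 (M N : Cm) (P : Pr) (c q j g : ℕ) (l l0 l1 : ℕ → List ℕ) : Prop where
  i0 : Inv (M.tw g) (P.tw M.n g) (2 * j) l0
  t0 : (P.tw M.n g).tot M.n l0 = P.tot M.n l
  cut : (M.tw g).Cutm N (cutR M.n M.n c q P j g).ccut
  mu : N.mu = M.mu
  i1 : Inv N (cutR M.n M.n c q P j g).cut (2 * j + 1) l1
  t1 : (cutR M.n M.n c q P j g).cut.tot M.n l1 ≤ P.tot M.n l + 16 * M.mu
  iff : ∀ v, (cutR M.n M.n c q P j g).ccut v ↔ (cutR M.n M.n c q P j g).P.En 0 v = v ∧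
    (M.tw g).Cond M.n v ∧ (cutR M.n M.n c q P j g).short 0 v ∧
      (cutR M.n M.n c q P j g).short 1 ((cutR M.n M.n c q P j g).cg v)

theorem c1_ex (I : Inv M P (2 * j) l) (hg : g < 8) (hq : 16 * M.n * (2 * j + 4) < q) :
    ∃ N l0 l1, C1 M N P c q j g l l0 l1 := by
  obtain ⟨l0, I0, t0⟩ := twiS M P _ l g hg I
  obtain ⟨N, l1, c1, c2, I1, t1, c3⟩ := cutRound (M := M.tw g) (cutR M.n M.n c q P j g) rfl I0
    (big (k := 0) hq (by omega))
  have m0 := tw_mu I.ok hg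
  exact ⟨N, l0, l1, I0, t0, c1, c2.trans m0, I1, by rw [← t0, ← m0]; exact t1, c3⟩

/-- The kill of a level. -/
theorem k1_ex {l0 l1 : ℕ → List ℕ} (C : C1 M N P c q j g l l0 l1) (hg : g < 8)
    (hq : 16 * M.n * (2 * j + 4) < q) (k w : ℕ) (T : List ℕ) :
    ∃ L l3, N.Smo L (N.Dead (killG M.n c q k P j g w T).sel) ∧
      N.Fam (killG M.n c q k P j g w T).sel ∧ L.Ok ∧
      Inv (L.tw (gi g)) ((killG M.n c q k P j g w T).kill.tw M.n (gi g)) (2 * (j + 1)) l3 ∧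
      ((killG M.n c q k P j g w T).kill.tw M.n (gi g)).tot M.n l3 ≤
        P.tot M.n l + 16 * M.mu + 16 * L.mu := by
  have n1 : N.n = M.n := C.cut.n
  obtain ⟨L, l2, k1, k2, I2, t2⟩ := killRound (M := N) (killG M.n c q k P j g w T) n1.symm C.i1
    (by rw [n1]; exact big (k := 1) hq (by omega))
  have n2 : L.n = M.n := k1.n.trans n1
  obtain ⟨l3, I3, t3⟩ := twiS L _ _ l2 (gi g) (gi_lt hg) I2
  rw [n2] at I3 t3
  rw [n1] at t2
  have t2' : (killG M.n c q k P j g w T).kill.tot M.n l2 ≤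
    (cutR M.n M.n c q P j g).cut.tot M.n l1 + 16 * L.mu := t2
  have := C.t1
  exact ⟨L, l3, k1, k2, I2.ok, I3, by omega⟩

/-- The cells that die with a selected pole. -/
theorem dd_eq {K : Rn} (H : K.Hy N) : N.Fam K.sel ∧ ∀ x, K.sel x → dd K x = N.Dd x := by
  obtain ⟨L, k1, -, k2, k3, -⟩ := killS K N H
  have S := selS K N H (flowS N H.ok)
  refine ⟨k2, fun x hx => ?_⟩
  have ea : K.al' = L.al := k3.al
  have ob : ∀ u y, K.sel u → N.Dd u y → N.al y ∧ K.obj 0 y = u := fun u y hu d =>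
    have D := sDead N H.ok u (k2.top u hu)
    ⟨D.al y d, ((S.obj (by omega)).2 ⟨D.al y d, hu, (D.co y d).1.co⟩).1⟩
  funext y
  unfold dd
  rw [ea, H.geo.al, k1.al]
  refine propext ⟨fun ⟨a, b, d⟩ => ?_, fun d => ⟨(ob x y hx d).2, (ob x y hx d).1,
    fun u => u.2 ⟨x, hx, d⟩⟩⟩
  obtain ⟨u, hu, d⟩ : N.Dead K.sel y := by_contra fun v => d ⟨b, v⟩
  rwa [← a, (ob u y hu d).2]

theorem clip_rs (h : P.rs ≤ q) : (P.clip q).rs = P.rs := min_eq_left h

theorem his_eq {γ i : ℕ} {H : Orc} (I : Inv M (stg M.n c q H i) j l) :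
    (his M.n c q γ H).σ i = tr M.lk ∧ (his M.n c q γ H).A i = M.al :=
  ⟨congrArg (fun N : Cm => tr N.lk) (I.geo.mp_eq I.ok), I.geo.al⟩

theorem stepS (O : OpK) (B : Br) (hi : HiS) (hc : CoS) : StepS := by
  rintro n c q γ k s t β j w r H o ⟨⟨M, ls, rfl, I⟩, ok, fre, gn0, ans⟩ hq q8 jq qb c0 hk e
  have A := ag_ext (n := M.n) (c := c) (q := q) (γ := γ) (j := j) (H := H) (o := o)
  rw [← lvl_eq jq] at e
  have q2 : 16 * M.n * (2 * (j + 1) + 2) < q := big (k := 2) hq le_rfl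
  have lj : lvl q (ext j H o) j = lvl q H j := lvl_le le_rfl
  have rs : (lvl q (ext j H o) (j + 1)).rs = w % 9 := by
    rw [lvl_new jq, e]
    exact min_eq_left (show w % 9 ≤ q by omega)
  obtain ⟨s0, a0⟩ := his_eq (c := c) (q := q) (γ := γ) (i := 2 * j) (H := ext j H o)
    (by rw [stg0, lj]; exact I)
  have ok' := A.ok ok
  have fre' := A.fre fre
  have lv := (hi _ _ ok').lv _ le_rfl
  suffices u : (∃ M' ls', M'.n = M.n ∧ Inv M' (lvl q (ext j H o) (j + 1)) (2 * (j + 1)) ls') ∧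
      (his M.n c q γ (ext j H o)).Ok (2 * j + 1 + 1) ∧
      (his M.n c q γ (ext j H o)).Fre (2 * j + 1 + 1) s t from
    ⟨u.1, u.2.1, u.2.2, by rw [A.σ 0 (by omega), A.A 0 (by omega)]; exact gn0,
      by rw [A.σ 0 (by omega), A.A 0 (by omega)]; exact ans⟩
  by_cases g8 : w % 9 = 8
  · obtain ⟨ls', J, -⟩ := I.li.garb (colq q (4 * (4 * c)) (w / 9)) q
    have I2 : Inv M (lvl q (ext j H o) (j + 1)) (2 * (j + 1)) ls' := by
      rw [lvl_new jq, e, step_eq, if_pos g8]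
      exact (clipS M _ _ ls' q (wr_inv (garb_inv I J) _) q2 (by omega)).1
    obtain ⟨s1, a1⟩ := his_eq (c := c) (q := q) (γ := γ) (i := 2 * j + 1) (H := ext j H o)
      (by rw [stg1, rs, mid, if_pos g8, lj]; exact I)
    obtain ⟨s2, a2⟩ := his_eq (c := c) (q := q) (γ := γ) (i := 2 * (j + 1)) (H := ext j H o)
      (by rw [stg0]; exact I2)
    change Hs.σ _ (2 * j + 1 + 1) = _ at s2
    change Hs.A _ (2 * j + 1 + 1) = _ at a2
    rw [s0, a0] at lv
    refine ⟨⟨M, ls', rfl, I2⟩, ok_succ (ok_succ ok' ?_) ?_, fre_succ (fre_succ fre' fun y u v => ?_)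
      fun y u v => ?_⟩
    · rw [s0, s1, a0, a1, his_T0, rs, show cT M.n c q _ j (w % 9) = fun _ => False from
        funext fun y => eq_false fun u => u.1 g8]
      exact O.id lv
    · rw [s1, s2, a1, a2, his_T1, lj, I.geo.al, I2.geo.al,
        show (fun y => _ ∧ M.al y ∧ ¬M.al y) = fun _ => False from
          funext fun y => eq_false fun u => u.2.2 u.2.1]
      exact O.id lv
    · exact absurd (by rw [a1, ← a0]; exact u.1) v
    · exact absurd (by rw [a2, ← a1]; exact u.1) v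
  have hg : w % 9 < 8 := by omega
  generalize hT : clip k β (tbG M.n c q γ k s t H j w) = T at e
  obtain ⟨N, l0, l1, C⟩ := c1_ex (c := c) I hg hq
  obtain ⟨L, l3, k1, k2, okL, I3, -⟩ := k1_ex C hg hq k (w / 9) T
  have n1 : N.n = M.n := C.cut.n
  have n2 : (L.tw (gi (w % 9))).n = M.n := k1.n.trans n1
  have I2 : Inv (L.tw (gi (w % 9))) (lvl q (ext j H o) (j + 1)) (2 * (j + 1)) l3 := by
    rw [lvl_new jq, e, step_eq, if_neg g8]
    exact (clipS _ _ _ l3 q (wr_inv I3 _) (by rw [n2]; exact q2) (by omega)).1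
  obtain ⟨l2, I1, -⟩ := twiS N _ _ l1 (gi (w % 9)) (gi_lt hg) C.i1
  have em : stg M.n c q (ext j H o) (2 * j + 1) = mid M.n c q (lvl q H j) j (w % 9) := by
    rw [stg1, rs, lj]
  obtain ⟨s1, a1⟩ := his_eq (M := N.tw (gi (w % 9))) (c := c) (q := q) (γ := γ) (i := 2 * j + 1)
    (H := ext j H o) (by
      rw [show (N.tw (gi (w % 9))).n = M.n from n1, em, mid, if_neg g8, ← n1]
      rw [← n1] at I1
      exact I1)
  obtain ⟨s2, a2⟩ := his_eq (c := c) (q := q) (γ := γ) (i := 2 * (j + 1)) (H := ext j H o)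
    (by rw [stg0]; exact I2)
  rw [show (N.tw (gi (w % 9))).n = M.n from n1] at s1 a1
  rw [n2] at s2 a2
  rw [tw_al C.i1.ok (gi_lt hg)] at a1
  rw [tw_al okL (gi_lt hg)] at a2
  change Hs.σ _ (2 * j + 1 + 1) = _ at s2
  change Hs.A _ (2 * j + 1 + 1) = _ at a2
  have ea : N.al = M.al := (cutm_al C.i0.ok C.cut).trans (tw_al I.ok hg)
  have t0 : (his M.n c q γ (ext j H o)).T (2 * j) = cT M.n c q (lvl q H j) j (w % 9) := by
    rw [his_T0, rs, lj]
  have t1 : (his M.n c q γ (ext j H o)).T (2 * j + 1) =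
      fun y => fs (w % 9) 0 % 2 = 1 ∧ N.al y ∧ ¬L.al y := by
    rw [his_T1, rs, lj, I.geo.al, I2.geo.al, tw_al okL (gi_lt hg), ea]
  have ok1 : (his M.n c q γ (ext j H o)).Ok (2 * j + 1) := ok_succ ok' (by
    have hy := hyS (cutR M.n M.n c q (lvl q H j) j (w % 9)) (M.tw (w % 9)) _ l0 rfl C.i0
      (big (k := 0) hq (by omega))
    rw [s0, s1, a0, a1, t0, show cT M.n c q (lvl q H j) j (w % 9) = _ from funext fun y =>
      propext ((and_iff_right g8).trans (hy.cis_iff (by split_ifs <;> omega)))]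
    exact B.cut I.ok hg C.cut)
  refine ⟨⟨_, l3, n2, I2⟩, ok_succ ok1 ?_, fre_succ (fre_succ fre' fun y u v => ?_)
    fun y u v x => ?_⟩
  · rw [s1, s2, a1, a2, t1]
    exact n1 ▸ B.kill C.i1.ok hg k2.top k1
  · exact absurd (by rw [a1, ea, ← a0]; exact u.1) v
  have hy := hyS (killR M.n M.n c q (lvl q H j) j (w % 9) (w / 9)) N _ l1 n1.symm C.i1
    (by rw [n1]; exact big (k := 1) hq (by omega))
  obtain ⟨fam, de⟩ := dd_eq hy
  have yN : N.al y := a1 ▸ u.1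
  rw [a2] at v
  rw [t1] at x
  have ev : fs (w % 9) 0 % 2 = 0 := by
    by_contra f
    exact x ⟨by omega, yN, v⟩
  obtain ⟨b1, b2⟩ := B.bas _ _ _ ok1 le_rfl C.i1.ok hg n1.symm s1 a1 fam ev
  have e1 : (his M.n c q γ (ext j H o)).A (2 * j + 1) = (his M.n c q γ (ext j H o)).A (2 * j) := by
    rw [a1, a0, ea]
  have co : co1 (his M.n c q γ H) (2 * j)
      (tr ((mid M.n c q (lvl q H j) j (w % 9)).mp M.n).lk) (mid M.n c q (lvl q H j) j (w % 9)).al =
      (his M.n c q γ (ext j H o)).Co (2 * j + 1) := by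
    rw [co_succ e1, A.co1, ← em]
    rfl
  have bk : ∀ x, blk c q s t (his M.n c q γ H) (lvl q H j) j (w % 9) (w / 9) x ↔
      ((killR M.n M.n c q (lvl q H j) j (w % 9) (w / 9)).sel x ∧
        (his M.n c q γ (ext j H o)).Co (2 * j + 1) x) ∧
      ¬(his M.n c q γ (ext j H o)).Free (2 * j + 1) (N.Dd x) (fs (w % 9) 0 / 2)
        (if fs (w % 9) 0 / 2 = 1 then t else s) := fun x => by
    rw [and_assoc]
    refine and_congr_right fun hx => ?_
    show co1 _ _ (tr ((mid M.n c q (lvl q H j) j (w % 9)).mp M.n).lk)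
      (mid M.n c q (lvl q H j) j (w % 9)).al x ∧ _ ∧ ¬fr1 _ (co1 _ _
        (tr ((mid M.n c q (lvl q H j) j (w % 9)).mp M.n).lk)
        (mid M.n c q (lvl q H j) j (w % 9)).al) (y1 _ _ (cT M.n c q (lvl q H j) j (w % 9))) _
        (dd (killR M.n M.n c q (lvl q H j) j (w % 9) (w / 9)) x) _ _ ↔ _
    rw [co, de x hx, ← t0, ← A.y1, ← y_succ, ← A.G le_rfl, ← g_succ e1, ← A.fr1, and_iff_right ev]
    rfl
  have few := hc _ _ _ M.n _ (if fs (w % 9) 0 / 2 = 1 then t else s) _ _ ok1 le_rfl b1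
  rw [A.σ 0 (by omega), A.A 0 (by omega), ← cnt_congr fun x _ => bk x] at few
  obtain ⟨x, hx, d⟩ : N.Dead (killG M.n c q k (lvl q H j) j (w % 9) (w / 9) T).sel y :=
    by_contra fun f => v ((k1.al y).2 ⟨yN, f⟩)
  obtain ⟨x1, x2⟩ := selG.1 hx
  have fr : (his M.n c q γ (ext j H o)).Free (2 * j + 1) (N.Dd x) (fs (w % 9) 0 / 2)
      (if fs (w % 9) 0 / 2 = 1 then t else s) := by
    by_contra f
    have xn : x < M.n := n1 ▸ C.i1.ok.lt x (fam.top x x1).1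
    obtain ⟨f1, f2⟩ := sel_cnt xn ((bk x).2 ⟨⟨x1, b2 x y x1 d u⟩, f⟩)
    have f3 : (his M.n c q γ (ext j H o)).n = M.n := rfl
    rw [f3] at few
    have lt : cnt x (blk c q s t (his M.n c q γ H) (lvl q H j) j (w % 9) (w / 9)) < k := by omega
    refine x2 ⟨_, lt, ?_⟩
    rw [← hT, clip, gt_tab _ lt, tbG, gt_tab _ lt, f1]
    exact min_eq_right (by nlinarith)
  refine ⟨N.Dd x, d, ?_⟩
  have := fs_lt (w % 9) 0
  by_cases f : fs (w % 9) 0 / 2 = 1
  · rw [if_pos f, f] at fr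
    exact Or.inl fr
  · rw [if_neg f, show fs (w % 9) 0 / 2 = 0 by omega] at fr
    exact Or.inr fr

end

end Pool.Agent.MP_1a6d78_lc.GX
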